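import Mathlib

/-! Growth-fragmentation semigroups on `L¹((0,∞), x dx)`: the definitions. -/

namespace Pool.Agent.X114.GF

open MeasureTheory Filter Topology Set
open scoped ComplexOrder

/-- The measure `x dx` on `(0,∞)`. -/
noncomputable def mu : Measure ℝ :=
  (volume.restrict (Ioi (0 : ℝ))).withDensity (fun x => ENNReal.ofReal x)

/-- Growth rates: `r > 0`, `1/r` locally integrable on `(0,∞)`, and the integrals of `1/r` over
`(0,1)` and `(1,∞)` are infinite. -/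
structure IsGrowthRate (r : ℝ → ℝ) : Prop where
  measurable : Measurable r
  pos : ∀ x, 0 < x → 0 < r x
  locallyIntegrable : ∀ x y, 0 < x → x ≤ y → IntegrableOn (fun p => 1 / r p) (Icc x y)
  at_zero : ∫⁻ p in Ioc 0 1, ENNReal.ofReal (1 / r p) = ⊤
  at_infinity : ∫⁻ p in Ioi 1, ENNReal.ofReal (1 / r p) = ⊤

/-- Kernels `b ≥ 0` with `∫_0^y x b(x,y) dx = y` for all `y > 0` (conservation of mass). -/
structure IsConservativeKernel (b : ℝ → ℝ → ℝ) : Prop where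
  measurable : Measurable (Function.uncurry b)
  nonneg : ∀ x y, 0 ≤ b x y
  mass : ∀ y, 0 < y → ∫⁻ x in Ioo 0 y, ENNReal.ofReal (x * b x y) = ENNReal.ofReal y

/-- `X(y,t) ∈ (0,y]` solves `∫_{X(y,t)}^y dp / r(p) = t`. -/
def IsFlow (r : ℝ → ℝ) (X : ℝ → ℝ → ℝ) : Prop :=
  ∀ y t, 0 < y → 0 ≤ t → 0 < X y t ∧ X y t ≤ y ∧ ∫ p in (X y t)..y, 1 / r p = t

/-- A `C₀`-semigroup on a complex normed space. -/
structure IsC0Semigroup {X : Type} [NormedAddCommGroup X] [NormedSpace ℂ X]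
    (S : ℝ → X →L[ℂ] X) : Prop where
  zero : S 0 = 1
  add : ∀ s t, 0 ≤ s → 0 ≤ t → ∀ f, S (s + t) f = S s (S t f)
  continuous : ∀ f, Tendsto (fun t => S t f) (𝓝[>] 0) (𝓝 f)

/-- `f` is in the domain of the generator of `S`, and the generator maps `f` to `g`. -/
def GeneratorMaps {X : Type} [NormedAddCommGroup X] [NormedSpace ℂ X]
    (S : ℝ → X →L[ℂ] X) (f g : X) : Prop :=
  Tendsto (fun t : ℝ => ((t⁻¹ : ℝ) : ℂ) • (S t f - f)) (𝓝[>] 0) (𝓝 g)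

/-- Positive semigroups on `L¹(m)`. -/
def IsPositive (m : Measure ℝ) (S : ℝ → Lp ℂ 1 m →L[ℂ] Lp ℂ 1 m) : Prop :=
  ∀ t, 0 ≤ t → ∀ f : Lp ℂ 1 m, (∀ᵐ x ∂m, 0 ≤ f x) → ∀ᵐ x ∂m, 0 ≤ S t f x

/-- `U` is the transport semigroup
`(U(t)f)(y) = exp(-∫_{X(y,t)}^y a(p)/r(p) dp) f(X(y,t)) ∂_y X(y,t)` on `L¹(m)`. -/
def IsTransportSemigroup (m : Measure ℝ) (r a : ℝ → ℝ) (X : ℝ → ℝ → ℝ)
    (U : ℝ → Lp ℂ 1 m →L[ℂ] Lp ℂ 1 m) : Prop :=
  ∀ t, 0 ≤ t → ∀ f : Lp ℂ 1 m, ∀ᵐ y ∂m,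
    U t f y = (Real.exp (-∫ p in (X y t)..y, a p / r p) : ℂ) * f (X y t) *
      ((deriv (fun z => X z t) y : ℝ) : ℂ)

/-- `V` is a positive `C₀`-semigroup on `L¹(m)` whose generator is `T + B`, with the domain of `T`,
where `T` is the generator of the transport semigroup and `B f(x) = ∫_x^∞ a(y) b(x,y) f(y) dy`. -/
def IsGrowthFragmentationSemigroup (m : Measure ℝ) (r a : ℝ → ℝ) (b : ℝ → ℝ → ℝ)
    (V : ℝ → Lp ℂ 1 m →L[ℂ] Lp ℂ 1 m) : Prop :=
  IsC0Semigroup V ∧ IsPositive m V ∧ ∃ (X : ℝ → ℝ → ℝ) (U : ℝ → Lp ℂ 1 m →L[ℂ] Lp ℂ 1 m),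
    IsFlow r X ∧ IsTransportSemigroup m r a X U ∧ IsC0Semigroup U ∧ IsPositive m U ∧
      ∀ f g : Lp ℂ 1 m, GeneratorMaps V f g ↔ ∃ h : Lp ℂ 1 m, GeneratorMaps U f h ∧
        ∀ᵐ x ∂m, g x = h x + ∫ y in Ioi x, ((a y * b x y : ℝ) : ℂ) * f y

/-- The essential spectrum: `z` such that `z - T` is not invertible modulo compact operators. -/
def essSpectrum {X : Type} [NormedAddCommGroup X] [NormedSpace ℂ X] (T : X →L[ℂ] X) : Set ℂ :=
  {z | ¬ ∃ S K K' : X →L[ℂ] X, IsCompactOperator K ∧ IsCompactOperator K' ∧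
    S * (algebraMap ℂ (X →L[ℂ] X) z - T) = 1 + K ∧ (algebraMap ℂ (X →L[ℂ] X) z - T) * S = 1 + K'}

/-- The essential spectral radius. -/
noncomputable def essSpectralRadius {X : Type} [NormedAddCommGroup X] [NormedSpace ℂ X]
    (T : X →L[ℂ] X) : ENNReal :=
  ⨆ z ∈ essSpectrum T, (‖z‖₊ : ENNReal)

/-- The spectral gap `ω_ess(V) < ω(V)`: the essential spectral radius `e^{ω_ess t}` of `V(t)` is
less than its spectral radius `e^{ω t}`, for all `t > 0`. -/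
def HasSpectralGap {X : Type} [NormedAddCommGroup X] [NormedSpace ℂ X]
    (V : ℝ → X →L[ℂ] X) : Prop :=
  ∀ t, 0 < t → essSpectralRadius (V t) < spectralRadius ℂ (V t)

/-- The growth rate: `x` for `x < 1`, and `2x` for `x ≥ 1`. -/
noncomputable def rate (x : ℝ) : ℝ := if x < 1 then x else 2 * x

/-- The fragmentation rate: `0` for `x < 1`, and `1` for `x ≥ 1`. -/
noncomputable def frag (x : ℝ) : ℝ := if x < 1 then 0 else 1

/-- The kernel: for `y ≥ 1` the fragments are in `(0,1)` with density `2y`; for `y < 1` they are in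
`(0,y)` with density `2/y`. -/
noncomputable def kernel (x y : ℝ) : ℝ :=
  if 1 ≤ y then (if x < 1 then 2 * y else 0) else (if 0 < y ∧ x < y then 2 / y else 0)

end Pool.Agent.X114.GF
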