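import Pool.Agent.X114.GF.Defs

/-! The scaling group on `L¹((0,∞), x dx)`. -/

namespace Pool.Agent.X114.GF

open MeasureTheory Filter Topology Set

instance : IsLocallyFiniteMeasure mu := IsLocallyFiniteMeasure.withDensity_ofReal continuous_id

/-- The space `X₁`. -/
noncomputable abbrev X1 := Lp ℂ 1 mu

theorem lintegral_mu {g : ℝ → ENNReal} (hg : Measurable g) :
    ∫⁻ x, g x ∂mu = ∫⁻ x, (Ioi (0 : ℝ)).indicator (fun x => ENNReal.ofReal x * g x) x := by
  unfold mu
  rw [lintegral_withDensity_eq_lintegral_mul _ ENNReal.measurable_ofReal hg,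
    lintegral_indicator measurableSet_Ioi]
  rfl

theorem lintegral_scale {g : ℝ → ENNReal} (hg : Measurable g) (t : ℝ) :
    ∫⁻ y, g (Real.exp (-t) * y) ∂mu = ENNReal.ofReal (Real.exp (2 * t)) * ∫⁻ x, g x ∂mu := by
  have ha : (0 : ℝ) < Real.exp (-t) := Real.exp_pos _
  set a := Real.exp (-t) with hadef
  have hgc : Measurable (fun y => g (a * y)) := hg.comp (measurable_const_mul a)
  rw [lintegral_mu hgc, lintegral_mu hg]
  set H : ℝ → ENNReal := (Ioi (0 : ℝ)).indicator (fun z => ENNReal.ofReal (z / a) * g z) with hH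
  have hHm : Measurable H :=
    ((ENNReal.measurable_ofReal.comp (measurable_id.div_const a)).mul hg).indicator
      measurableSet_Ioi
  have h1 : ∀ y, (Ioi (0 : ℝ)).indicator (fun x => ENNReal.ofReal x * g (a * x)) y =
      H (a * y) := by
    intro y
    simp only [hH, indicator]
    by_cases hy : 0 < y
    · have h2 : y ∈ Ioi (0 : ℝ) := hy
      have h3 : a * y ∈ Ioi (0 : ℝ) := mul_pos ha hy
      rw [if_pos h2, if_pos h3]
      have : a * y / a = y := by field_simp
      rw [this]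
    · have h2 : y ∉ Ioi (0 : ℝ) := hy
      have h3 : a * y ∉ Ioi (0 : ℝ) := by
        intro h
        exact hy ((mul_pos_iff_of_pos_left ha).1 h)
      rw [if_neg h2, if_neg h3]
  have h4 : ∫⁻ y, H (a * y) = ENNReal.ofReal |a⁻¹| * ∫⁻ z, H z := by
    rw [← lintegral_map hHm (measurable_const_mul a), Real.map_volume_mul_left ha.ne',
      lintegral_smul_measure, smul_eq_mul]
  have h5 : ∀ z, H z = ENNReal.ofReal a⁻¹ *
      (Ioi (0 : ℝ)).indicator (fun x => ENNReal.ofReal x * g x) z := by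
    intro z
    simp only [hH, indicator]
    by_cases hz : 0 < z
    · have h2 : z ∈ Ioi (0 : ℝ) := hz
      rw [if_pos h2, if_pos h2, div_eq_inv_mul, ENNReal.ofReal_mul (inv_nonneg.2 ha.le), mul_assoc]
    · have h2 : z ∉ Ioi (0 : ℝ) := hz
      rw [if_neg h2, if_neg h2, mul_zero]
  have hm : Measurable ((Ioi (0 : ℝ)).indicator (fun x => ENNReal.ofReal x * g x)) :=
    (ENNReal.measurable_ofReal.mul hg).indicator measurableSet_Ioi
  calc ∫⁻ y, (Ioi (0 : ℝ)).indicator (fun x => ENNReal.ofReal x * g (a * x)) y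
      = ∫⁻ y, H (a * y) := lintegral_congr h1
    _ = ENNReal.ofReal |a⁻¹| * ∫⁻ z, H z := h4
    _ = ENNReal.ofReal |a⁻¹| * ∫⁻ z, ENNReal.ofReal a⁻¹ *
          (Ioi (0 : ℝ)).indicator (fun x => ENNReal.ofReal x * g x) z := by
        rw [lintegral_congr h5]
    _ = _ := by
        rw [lintegral_const_mul _ hm, ← mul_assoc, abs_of_pos (inv_pos.2 ha),
          ← ENNReal.ofReal_mul (inv_nonneg.2 ha.le)]
        congr 2
        rw [hadef, ← Real.exp_neg, ← Real.exp_add]
        congr 1; ring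

theorem map_scale (t : ℝ) : Measure.map (fun y => Real.exp (-t) * y) mu =
    ENNReal.ofReal (Real.exp (2 * t)) • mu := by
  ext A hA
  have h := lintegral_scale (g := A.indicator 1) (measurable_one.indicator hA) t
  rw [Measure.map_apply (measurable_const_mul _) hA, Measure.smul_apply, smul_eq_mul]
  have h1 : ∫⁻ y, A.indicator 1 (Real.exp (-t) * y) ∂mu =
      mu ((fun y => Real.exp (-t) * y) ⁻¹' A) := by
    rw [← lintegral_indicator_one (measurable_const_mul _ hA)]
    rfl
  have h2 : ∫⁻ x, A.indicator (1 : ℝ → ENNReal) x ∂mu = mu A := lintegral_indicator_one hA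
  rw [← h1, h, h2]

theorem qmp (t : ℝ) : Measure.QuasiMeasurePreserving (fun y => Real.exp (-t) * y) mu mu := by
  refine ⟨measurable_const_mul _, ?_⟩
  rw [map_scale]
  exact Measure.smul_absolutelyContinuous

/-- The scaled function. -/
noncomputable def sc (t : ℝ) (f : ℝ → ℂ) : ℝ → ℂ := fun y =>
  (Real.exp (-(2 * t)) : ℂ) * f (Real.exp (-t) * y)

theorem sc_aesm {f : ℝ → ℂ} (hf : AEStronglyMeasurable f mu) (t : ℝ) :
    AEStronglyMeasurable (sc t f) mu :=
  (hf.comp_quasiMeasurePreserving (qmp t)).const_mul _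

theorem sc_eLpNorm {f : ℝ → ℂ} (hf : AEStronglyMeasurable f mu) (t : ℝ) :
    eLpNorm (sc t f) 1 mu = eLpNorm f 1 mu := by
  rw [eLpNorm_one_eq_lintegral_enorm, eLpNorm_one_eq_lintegral_enorm]
  set g : ℝ → ℂ := hf.mk f with hg
  have hgm : Measurable g := hf.stronglyMeasurable_mk.measurable
  have h1 : ∫⁻ x, ‖f x‖ₑ ∂mu = ∫⁻ x, ‖g x‖ₑ ∂mu :=
    lintegral_congr_ae (hf.ae_eq_mk.mono fun x hx => by simp only [hx, hg])
  have h2 : ∫⁻ x, ‖sc t f x‖ₑ ∂mu = ∫⁻ x, ‖sc t g x‖ₑ ∂mu := by
    apply lintegral_congr_ae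
    filter_upwards [(qmp t).ae hf.ae_eq_mk] with x hx
    simp only [sc, hg]
    rw [hx]
  rw [h1, h2]
  have h3 : ∀ x, ‖sc t g x‖ₑ = ENNReal.ofReal (Real.exp (-(2 * t))) *
      ‖g (Real.exp (-t) * x)‖ₑ := by
    intro x
    simp only [sc, enorm_mul]
    congr 1
    rw [← ofReal_norm, Complex.norm_real, Real.norm_eq_abs, abs_of_pos (Real.exp_pos _)]
  have h4 : Measurable (fun x => ‖g (Real.exp (-t) * x)‖ₑ) :=
    hgm.enorm.comp (measurable_const_mul _)
  have h5 := lintegral_scale hgm.enorm t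
  rw [lintegral_congr h3, lintegral_const_mul _ h4, h5, ← mul_assoc,
    ← ENNReal.ofReal_mul (Real.exp_pos _).le, ← Real.exp_add]
  simp

theorem sc_memLp {f : ℝ → ℂ} (hf : MemLp f 1 mu) (t : ℝ) : MemLp (sc t f) 1 mu :=
  ⟨sc_aesm hf.1 t, by rw [sc_eLpNorm hf.1]; exact hf.2⟩

/-- The scaling operator. -/
noncomputable def U (t : ℝ) : X1 →L[ℂ] X1 :=
  LinearMap.mkContinuous
    { toFun := fun f => (sc_memLp (Lp.memLp f) t).toLp
      map_add' := fun f g => by
        rw [← MemLp.toLp_add]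
        apply MemLp.toLp_congr
        filter_upwards [(qmp t).ae (Lp.coeFn_add f g)] with x hx
        simp only [sc, Pi.add_apply] at hx ⊢
        rw [hx]; ring
      map_smul' := fun c f => by
        simp only [RingHom.id_apply]
        rw [← MemLp.toLp_const_smul]
        apply MemLp.toLp_congr
        filter_upwards [(qmp t).ae (Lp.coeFn_smul c f)] with x hx
        simp only [sc, Pi.smul_apply, smul_eq_mul] at hx ⊢
        rw [hx]; ring } 1 (fun f => by
      simp only [LinearMap.coe_mk, AddHom.coe_mk, one_mul]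
      rw [Lp.norm_toLp, sc_eLpNorm (Lp.aestronglyMeasurable f), Lp.norm_def])

theorem U_coe (t : ℝ) (f : X1) : (U t f : ℝ → ℂ) =ᵐ[mu] sc t f := by
  show ((sc_memLp (Lp.memLp f) t).toLp : ℝ → ℂ) =ᵐ[mu] sc t f
  exact MemLp.coeFn_toLp _

theorem U_norm (t : ℝ) (f : X1) : ‖U t f‖ = ‖f‖ := by
  show ‖(sc_memLp (Lp.memLp f) t).toLp‖ = ‖f‖
  rw [Lp.norm_toLp, sc_eLpNorm (Lp.aestronglyMeasurable f), Lp.norm_def]

theorem U_zero : U 0 = 1 := by
  ext1 f
  apply Lp.ext
  filter_upwards [U_coe 0 f] with x hx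
  rw [hx]
  simp [sc]

theorem U_add (s t : ℝ) (f : X1) : U (s + t) f = U s (U t f) := by
  apply Lp.ext
  filter_upwards [U_coe (s + t) f, U_coe s (U t f), (qmp s).ae (U_coe t f)] with x h1 h2 h3
  rw [h1, h2]
  simp only [sc]
  rw [h3]
  simp only [sc]
  rw [← mul_assoc, ← mul_assoc]
  congr 1
  · rw [← Complex.ofReal_mul, ← Real.exp_add]; congr 2; ring
  · congr 2
    rw [← Real.exp_add]; congr 1; ring

theorem U_toLp {g : ℝ → ℂ} (hg : MemLp g 1 mu) (t : ℝ) :
    U t (hg.toLp g) = (sc_memLp hg t).toLp := by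
  apply Lp.ext
  filter_upwards [U_coe t (hg.toLp g), (qmp t).ae hg.coeFn_toLp,
    (sc_memLp hg t).coeFn_toLp] with x h1 h2 h3
  rw [h1, h3]
  simp only [sc]
  rw [h2]

theorem U_tendsto_cc {g : ℝ → ℂ} (hg : Continuous g) (hc : HasCompactSupport g)
    (hm : MemLp g 1 mu) : Tendsto (fun t => U t (hm.toLp g)) (𝓝 0) (𝓝 (hm.toLp g)) := by
  rw [tendsto_iff_norm_sub_tendsto_zero]
  obtain ⟨C, hC⟩ := hc.exists_bound_of_continuous hg
  have hC0 : 0 ≤ C := (norm_nonneg _).trans (hC 0)
  obtain ⟨R, hR⟩ := hc.isCompact.isBounded.subset_closedBall (0 : ℝ)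
  have hg0 : ∀ x, R < |x| → g x = 0 := by
    intro x hx
    by_contra h
    have := hR (subset_tsupport _ h)
    rw [mem_closedBall_zero_iff, Real.norm_eq_abs] at this
    linarith
  have hn : ∀ t, ‖U t (hm.toLp g) - hm.toLp g‖ = ∫ x, ‖sc t g x - g x‖ ∂mu := by
    intro t
    rw [U_toLp, ← MemLp.toLp_sub, L1.norm_eq_integral_norm]
    apply integral_congr_ae
    filter_upwards [((sc_memLp hm t).sub hm).coeFn_toLp] with x hx
    rw [hx]; rfl
  simp only [hn]
  have hz : ∫ x, (0 : ℝ) ∂mu = 0 := by simp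
  have key : Tendsto (fun t => ∫ x, ‖sc t g x - g x‖ ∂mu) (𝓝 0) (𝓝 (∫ x, (0 : ℝ) ∂mu)) := ?_
  · rwa [hz] at key
  refine tendsto_integral_filter_of_dominated_convergence
    ((Metric.closedBall (0 : ℝ) (Real.exp 1 * |R|)).indicator
      fun _ => Real.exp 2 * C + C) ?_ ?_ ?_ ?_
  · filter_upwards with t
    exact ((sc_memLp hm t).1.sub hm.1).norm
  · filter_upwards [Metric.ball_mem_nhds (0 : ℝ) one_pos] with t ht
    filter_upwards with x
    rw [norm_norm]
    rw [mem_ball_zero_iff, Real.norm_eq_abs] at ht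
    have ht' := abs_lt.1 ht
    by_cases hx : x ∈ Metric.closedBall (0 : ℝ) (Real.exp 1 * |R|)
    · rw [indicator_of_mem hx]
      refine (norm_sub_le _ _).trans (add_le_add ?_ (hC x))
      simp only [sc, norm_mul, Complex.norm_real, Real.norm_eq_abs, abs_of_pos (Real.exp_pos _)]
      exact mul_le_mul (Real.exp_le_exp.2 (by linarith)) (hC _) (norm_nonneg _)
        (Real.exp_pos _).le
    · rw [indicator_of_notMem hx]
      rw [mem_closedBall_zero_iff, Real.norm_eq_abs, not_le] at hx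
      have h1 : g x = 0 := by
        apply hg0
        have : |R| ≤ Real.exp 1 * |R| :=
          le_mul_of_one_le_left (abs_nonneg _) (Real.one_le_exp (by norm_num))
        exact lt_of_le_of_lt (le_abs_self R) (lt_of_le_of_lt this hx)
      have h2 : g (Real.exp (-t) * x) = 0 := by
        apply hg0
        rw [abs_mul, abs_of_pos (Real.exp_pos _)]
        have h3 : Real.exp (-1) * (Real.exp 1 * |R|) = |R| := by
          rw [← mul_assoc, ← Real.exp_add]; simp
        have h4 : Real.exp (-1) * (Real.exp 1 * |R|) < Real.exp (-1) * |x| :=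
          mul_lt_mul_of_pos_left hx (Real.exp_pos _)
        have h5 : Real.exp (-1) * |x| ≤ Real.exp (-t) * |x| :=
          mul_le_mul_of_nonneg_right (Real.exp_le_exp.2 (by linarith)) (abs_nonneg _)
        linarith [le_abs_self R]
      simp [sc, h1, h2]
  · have hfin : mu (Metric.closedBall (0 : ℝ) (Real.exp 1 * |R|)) ≠ ⊤ :=
      (isCompact_closedBall _ _).measure_lt_top.ne
    exact (integrable_indicator_iff Metric.isClosed_closedBall.measurableSet).2
      (integrableOn_const hfin)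
  · filter_upwards with x
    have h1 : Tendsto (fun t : ℝ => sc t g x - g x) (𝓝 0) (𝓝 (sc 0 g x - g x)) := by
      have : Continuous (fun t : ℝ => sc t g x - g x) := by
        unfold sc
        fun_prop
      exact this.tendsto 0
    have h2 : sc 0 g x - g x = 0 := by simp [sc]
    rw [h2] at h1
    simpa using h1.norm

theorem U_tendsto_zero (f : X1) : Tendsto (fun t => U t f) (𝓝 0) (𝓝 f) := by
  rw [Metric.tendsto_nhds]
  intro ε hε
  obtain ⟨g, hgc, hge, hg, hm⟩ := (Lp.memLp f).exists_hasCompactSupport_eLpNorm_sub_le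
    (by norm_num) (show ENNReal.ofReal (ε / 4) ≠ 0 by
      rw [Ne, ENNReal.ofReal_eq_zero, not_le]; positivity)
  have hfg : ‖f - hm.toLp g‖ ≤ ε / 4 := by
    have : f - hm.toLp g = ((Lp.memLp f).sub hm).toLp := by
      rw [MemLp.toLp_sub (Lp.memLp f) hm, Lp.toLp_coeFn f (Lp.memLp f)]
    rw [this, Lp.norm_toLp]
    exact ENNReal.toReal_le_of_le_ofReal (by positivity) hge
  have h1 := (Metric.tendsto_nhds.1 (U_tendsto_cc hg hgc hm)) (ε / 4) (by positivity)
  filter_upwards [h1] with t ht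
  rw [dist_eq_norm] at ht ⊢
  have e : U t f - f = U t (f - hm.toLp g) + (U t (hm.toLp g) - hm.toLp g) -
      (f - hm.toLp g) := by
    rw [map_sub]; abel
  rw [e]
  have h2 : ‖U t (f - hm.toLp g)‖ ≤ ε / 4 := by rw [U_norm]; exact hfg
  have h3 := norm_sub_le (U t (f - hm.toLp g) + (U t (hm.toLp g) - hm.toLp g)) (f - hm.toLp g)
  have h4 := norm_add_le (U t (f - hm.toLp g)) (U t (hm.toLp g) - hm.toLp g)
  linarith

theorem U_continuous (f : X1) : Continuous (fun t => U t f) := by
  rw [continuous_iff_continuousAt]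
  intro t0
  have h := (U_tendsto_zero f).comp (show Tendsto (fun t : ℝ => t - t0) (𝓝 t0) (𝓝 0) by
    have : Continuous fun t : ℝ => t - t0 := by fun_prop
    simpa using this.tendsto t0)
  have h2 := ((U t0).continuous.tendsto f).comp h
  refine h2.congr fun t => ?_
  simp only [Function.comp_apply]
  rw [← U_add]; congr 1; ring_nf

end Pool.Agent.X114.GF
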