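import Mathlib

/-! Bounded perturbations of isometric one-parameter groups. -/

namespace Pool.Agent.X114.GF

open MeasureTheory Filter Topology Set
open scoped ComplexOrder

set_option linter.unusedSectionVars false

variable {X : Type} [NormedAddCommGroup X] [NormedSpace ℂ X] [CompleteSpace X]

/-- An isometric strongly continuous one-parameter group. -/
structure IsoGroup (U : ℝ → X →L[ℂ] X) : Prop where
  zero : U 0 = 1
  add : ∀ s t f, U (s + t) f = U s (U t f)
  norm : ∀ t f, ‖U t f‖ = ‖f‖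
  cont : ∀ f, Continuous fun t => U t f

/-- The operators of the interaction picture. -/
noncomputable def G (U : ℝ → X →L[ℂ] X) (B : X →L[ℂ] X) (s : ℝ) : X →L[ℂ] X :=
  (U (-s)).comp (B.comp (U s))

theorem expbound {w c : ℝ} (hw : 0 < w) (hc : 0 ≤ c) {F : ℝ → X}
    (hF : ∀ s, ‖F s‖ ≤ c * Real.exp (w * |s|)) (t : ℝ) :
    ‖∫ s in (0 : ℝ)..t, F s‖ ≤ c / w * Real.exp (w * |t|) := by
  have pos : ∀ (F : ℝ → X), (∀ s, ‖F s‖ ≤ c * Real.exp (w * |s|)) → ∀ t : ℝ, 0 ≤ t →
      ‖∫ s in (0 : ℝ)..t, F s‖ ≤ c / w * Real.exp (w * t) := by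
    intro F hF t ht
    have h1 : ‖∫ s in (0 : ℝ)..t, F s‖ ≤ ∫ s in (0 : ℝ)..t, c * Real.exp (w * s) := by
      apply intervalIntegral.norm_integral_le_of_norm_le ht
      · filter_upwards with s hs
        have := hF s
        rwa [abs_of_pos hs.1] at this
      · exact (Continuous.intervalIntegrable (by fun_prop) _ _)
    have h2 : ∫ s in (0 : ℝ)..t, c * Real.exp (w * s) = c / w * (Real.exp (w * t) - 1) := by
      rw [intervalIntegral.integral_const_mul,
        intervalIntegral.integral_comp_mul_left (fun x => Real.exp x) hw.ne', integral_exp]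
      simp
      ring
    rw [h2] at h1
    refine h1.trans ?_
    apply mul_le_mul_of_nonneg_left _ (by positivity)
    linarith
  rcases le_total 0 t with ht | ht
  · rw [abs_of_nonneg ht]; exact pos F hF t ht
  · rw [abs_of_nonpos ht]
    have h := pos (fun s => F (-s)) (fun s => by simpa using hF (-s)) (-t) (by linarith)
    rw [intervalIntegral.integral_comp_neg (fun s => F s)] at h
    rw [intervalIntegral.integral_symm, norm_neg]
    simpa using h

namespace IsoGroup

variable {U : ℝ → X →L[ℂ] X} (hU : IsoGroup U)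

include hU

theorem cont_apply {v : ℝ → X} (hv : Continuous v) : Continuous fun s => U s (v s) := by
  rw [continuous_iff_continuousAt]
  intro s0
  unfold ContinuousAt
  rw [tendsto_iff_norm_sub_tendsto_zero]
  have h1 : Tendsto (fun s => ‖v s - v s0‖ + ‖U s (v s0) - U s0 (v s0)‖) (𝓝 s0) (𝓝 0) := by
    have : Continuous fun s => ‖v s - v s0‖ + ‖U s (v s0) - U s0 (v s0)‖ :=
      (hv.sub continuous_const).norm.add (((hU.cont (v s0)).sub continuous_const).norm)
    simpa using this.tendsto s0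
  refine squeeze_zero (fun _ => norm_nonneg _) (fun s => ?_) h1
  have e : U s (v s) - U s0 (v s0) = U s (v s - v s0) + (U s (v s0) - U s0 (v s0)) := by
    rw [map_sub]; abel
  rw [e]
  refine (norm_add_le _ _).trans ?_
  rw [hU.norm]

theorem cont_neg_apply {v : ℝ → X} (hv : Continuous v) : Continuous fun s => U (-s) (v s) := by
  have := (hU.cont_apply (v := fun s => v (-s)) (hv.comp continuous_neg)).comp continuous_neg
  simpa [Function.comp_def] using this

theorem neg_apply (s : ℝ) (f : X) : U (-s) (U s f) = f := by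
  rw [← hU.add, neg_add_cancel, hU.zero]; rfl

theorem apply_neg (s : ℝ) (f : X) : U s (U (-s) f) = f := by
  rw [← hU.add, add_neg_cancel, hU.zero]; rfl

theorem G_norm (B : X →L[ℂ] X) (s : ℝ) (f : X) : ‖G U B s f‖ ≤ ‖B‖ * ‖f‖ := by
  show ‖U (-s) (B (U s f))‖ ≤ _
  rw [hU.norm]
  refine (B.le_opNorm _).trans ?_
  rw [hU.norm]

theorem G_cont (B : X →L[ℂ] X) {v : ℝ → X} (hv : Continuous v) :
    Continuous fun s => G U B s (v s) :=
  hU.cont_neg_apply (B.continuous.comp (hU.cont_apply hv))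

end IsoGroup

section picard

open BoundedContinuousFunction

variable {U : ℝ → X →L[ℂ] X} (hU : IsoGroup U) (B : X →L[ℂ] X) {w : ℝ}

/-- The integral operator, on functions. -/
noncomputable def kfun (U : ℝ → X →L[ℂ] X) (B : X →L[ℂ] X) (w : ℝ) (v : ℝ → X) (t : ℝ) : X :=
  Real.exp (-(w * |t|)) • ∫ s in (0 : ℝ)..t, Real.exp (w * |s|) • G U B s (v s)

include hU

theorem kint_cont {v : ℝ → X} (hv : Continuous v) :
    Continuous fun s => Real.exp (w * |s|) • G U B s (v s) := by
  have h := hU.G_cont B hv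
  have h2 : Continuous fun s : ℝ => Real.exp (w * |s|) := by fun_prop
  exact h2.smul h

theorem kfun_cont {v : ℝ → X} (hv : Continuous v) : Continuous (kfun U B w v) := by
  have h := kint_cont hU B (w := w) hv
  have h1 : Continuous fun t => ∫ s in (0 : ℝ)..t, Real.exp (w * |s|) • G U B s (v s) :=
    intervalIntegral.continuous_primitive (fun a b => h.intervalIntegrable a b) 0
  have h2 : Continuous fun s : ℝ => Real.exp (-(w * |s|)) := by fun_prop
  exact h2.smul h1

theorem kfun_bound (hw : 0 < w) {v : ℝ → X} {C : ℝ} (hC : ∀ s, ‖v s‖ ≤ C) (t : ℝ) :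
    ‖kfun U B w v t‖ ≤ ‖B‖ / w * C := by
  have hC0 : 0 ≤ C := (norm_nonneg _).trans (hC 0)
  have h := expbound (F := fun s => Real.exp (w * |s|) • G U B s (v s)) hw
    (mul_nonneg (norm_nonneg B) hC0) (fun s => by
      rw [norm_smul, Real.norm_eq_abs, abs_of_pos (Real.exp_pos _), mul_comm]
      exact mul_le_mul_of_nonneg_right ((hU.G_norm B s _).trans
        (mul_le_mul_of_nonneg_left (hC s) (norm_nonneg _))) (Real.exp_pos _).le) t
  unfold kfun
  rw [norm_smul, Real.norm_eq_abs, abs_of_pos (Real.exp_pos _)]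
  calc _ ≤ Real.exp (-(w * |t|)) * (‖B‖ * C / w * Real.exp (w * |t|)) :=
        mul_le_mul_of_nonneg_left h (Real.exp_pos _).le
    _ = (Real.exp (-(w * |t|)) * Real.exp (w * |t|)) * (‖B‖ / w * C) := by ring
    _ = _ := by rw [← Real.exp_add, neg_add_cancel, Real.exp_zero, one_mul]

/-- The integral operator. -/
noncomputable def kop (hw : 0 < w) : (ℝ →ᵇ X) →L[ℂ] (ℝ →ᵇ X) :=
  LinearMap.mkContinuous
    { toFun := fun v => BoundedContinuousFunction.ofNormedAddCommGroup (kfun U B w v)
        (kfun_cont hU B v.continuous) (‖B‖ / w * ‖v‖)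
        (kfun_bound hU B hw (fun s => v.norm_coe_le_norm s))
      map_add' := fun v v' => by
        ext t
        show kfun U B w (v + v') t = kfun U B w v t + kfun U B w v' t
        unfold kfun
        rw [← smul_add, ← intervalIntegral.integral_add
          ((kint_cont hU B v.continuous).intervalIntegrable _ _)
          ((kint_cont hU B v'.continuous).intervalIntegrable _ _)]
        congr 1
        apply intervalIntegral.integral_congr
        intro s _
        simp only [Pi.add_apply, map_add, smul_add]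
      map_smul' := fun c v => by
        ext t
        show kfun U B w (c • v) t = c • kfun U B w v t
        unfold kfun
        have e : ∫ s in (0 : ℝ)..t, Real.exp (w * |s|) • G U B s ((c • ⇑v) s) =
            c • ∫ s in (0 : ℝ)..t, Real.exp (w * |s|) • G U B s (v s) := by
          rw [← intervalIntegral.integral_smul]
          apply intervalIntegral.integral_congr
          intro s _
          simp only [Pi.smul_apply, map_smul]
          rw [smul_comm]
        rw [e, smul_comm] } (‖B‖ / w) (fun v =>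
      BoundedContinuousFunction.norm_ofNormedAddCommGroup_le _ (by positivity)
        (kfun_bound hU B hw (fun s => v.norm_coe_le_norm s)))

theorem kop_norm (hw : 0 < w) : ‖kop hU B hw‖ ≤ ‖B‖ / w :=
  LinearMap.mkContinuous_norm_le _ (by positivity) _

omit hU in
/-- The inhomogeneous term. -/
noncomputable def sop (X : Type) [NormedAddCommGroup X] [NormedSpace ℂ X] (hw : 0 < w) :
    X →L[ℂ] (ℝ →ᵇ X) :=
  LinearMap.mkContinuous
    { toFun := fun f => BoundedContinuousFunction.ofNormedAddCommGroup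
        (fun t => Real.exp (-(w * |t|)) • f) (by fun_prop) ‖f‖ (fun t => by
          rw [norm_smul, Real.norm_eq_abs, abs_of_pos (Real.exp_pos _)]
          apply mul_le_of_le_one_left (norm_nonneg _)
          rw [Real.exp_le_one_iff]
          have := mul_nonneg hw.le (abs_nonneg t)
          linarith)
      map_add' := fun f g => by
        ext t
        show Real.exp (-(w * |t|)) • (f + g) = _
        rw [smul_add]; rfl
      map_smul' := fun c f => by
        ext t
        show Real.exp (-(w * |t|)) • (c • f) = c • (Real.exp (-(w * |t|)) • f)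
        rw [smul_comm] } 1 (fun f => by
      rw [one_mul]
      refine BoundedContinuousFunction.norm_ofNormedAddCommGroup_le _ (norm_nonneg _) (fun t => ?_)
      rw [norm_smul, Real.norm_eq_abs, abs_of_pos (Real.exp_pos _)]
      apply mul_le_of_le_one_left (norm_nonneg _)
      rw [Real.exp_le_one_iff]
      have := mul_nonneg hw.le (abs_nonneg t)
      linarith)

omit hU in
theorem complex_integral_nonneg {g : ℝ → ℂ} (hg : Continuous g) {t : ℝ} (ht : 0 ≤ t)
    (h : ∀ s, 0 ≤ s → 0 ≤ g s) : 0 ≤ ∫ s in (0 : ℝ)..t, g s := by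
  rw [Complex.nonneg_iff]
  have h1 : (∫ s in (0 : ℝ)..t, g s).re = ∫ s in (0 : ℝ)..t, (g s).re :=
    (Complex.reCLM.intervalIntegral_comp_comm (hg.intervalIntegrable 0 t)).symm
  have h2 : (∫ s in (0 : ℝ)..t, g s).im = ∫ s in (0 : ℝ)..t, (g s).im :=
    (Complex.imCLM.intervalIntegral_comp_comm (hg.intervalIntegrable 0 t)).symm
  rw [h1, h2]
  constructor
  · apply intervalIntegral.integral_nonneg ht
    intro s hs
    exact (Complex.nonneg_iff.1 (h s hs.1)).1
  · have : ∫ s in (0 : ℝ)..t, (g s).im = ∫ s in (0 : ℝ)..t, (0 : ℝ) := by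
      apply intervalIntegral.integral_congr
      intro s hs
      rw [uIcc_of_le ht] at hs
      exact (Complex.nonneg_iff.1 (h s hs.1)).2.symm
    rw [this]; simp

theorem kfun_pos (Φ : Set (X →L[ℂ] ℂ))
    (hΦU : ∀ t f, (∀ φ ∈ Φ, 0 ≤ φ f) → ∀ φ ∈ Φ, 0 ≤ φ (U t f))
    (hΦB : ∀ f, (∀ φ ∈ Φ, 0 ≤ φ f) → ∀ φ ∈ Φ, 0 ≤ φ (B f)) {v : ℝ → X} (hv : Continuous v)
    (hpos : ∀ s, 0 ≤ s → ∀ φ ∈ Φ, 0 ≤ φ (v s)) (t : ℝ) (ht : 0 ≤ t) :
    ∀ φ ∈ Φ, 0 ≤ φ (kfun U B w v t) := by
  intro φ hφ
  unfold kfun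
  have hc := kint_cont hU B (w := w) hv
  rw [φ.map_smul_of_tower, ← φ.intervalIntegral_comp_comm (hc.intervalIntegrable 0 t)]
  have h1 : 0 ≤ ∫ s in (0 : ℝ)..t, φ (Real.exp (w * |s|) • G U B s (v s)) := by
    apply complex_integral_nonneg (φ.continuous.comp hc) ht
    intro s hs
    simp only [Function.comp_apply]
    rw [φ.map_smul_of_tower, Complex.real_smul]
    apply mul_nonneg
    · exact_mod_cast (Real.exp_pos _).le
    · exact hΦU _ _ (hΦB _ (hΦU _ _ (hpos s hs))) φ hφ
  rw [Complex.real_smul]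
  apply mul_nonneg _ h1
  exact_mod_cast (Real.exp_pos _).le

/-- Existence of the propagator in the interaction picture. -/
theorem exists_W (Φ : Set (X →L[ℂ] ℂ))
    (hΦU : ∀ t f, (∀ φ ∈ Φ, 0 ≤ φ f) → ∀ φ ∈ Φ, 0 ≤ φ (U t f))
    (hΦB : ∀ f, (∀ φ ∈ Φ, 0 ≤ φ f) → ∀ φ ∈ Φ, 0 ≤ φ (B f)) :
    ∃ (W : ℝ → X →L[ℂ] X) (C w : ℝ), 0 ≤ C ∧ 0 < w ∧ (∀ f, Continuous fun t => W t f) ∧
      (∀ f t, W t f = f + ∫ s in (0 : ℝ)..t, G U B s (W s f)) ∧
      (∀ f t, ‖W t f‖ ≤ C * Real.exp (w * |t|) * ‖f‖) ∧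
      (∀ f, (∀ φ ∈ Φ, 0 ≤ φ f) → ∀ t, 0 ≤ t → ∀ φ ∈ Φ, 0 ≤ φ (W t f)) := by
  set w : ℝ := 2 * ‖B‖ + 1 with hwdef
  have hw : 0 < w := by positivity
  have hK : ‖kop hU B hw‖ < 1 := by
    refine lt_of_le_of_lt (kop_norm hU B hw) ?_
    rw [div_lt_one hw]
    have := norm_nonneg B
    linarith
  set K := kop hU B hw with hKdef
  set u := Units.oneSub K hK with hu
  set R : (ℝ →ᵇ X) →L[ℂ] (ℝ →ᵇ X) := ((u⁻¹ : (((ℝ →ᵇ X) →L[ℂ] (ℝ →ᵇ X)))ˣ) :
    (ℝ →ᵇ X) →L[ℂ] (ℝ →ᵇ X)) with hR
  have hRK : ∀ z, R z = K (R z) + z := by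
    intro z
    have h1 : (u : (ℝ →ᵇ X) →L[ℂ] (ℝ →ᵇ X)) * R = 1 := Units.mul_inv u
    have h3 : R z - K (R z) = z := congrArg (fun T : (ℝ →ᵇ X) →L[ℂ] (ℝ →ᵇ X) => T z) h1
    rw [sub_eq_iff_eq_add] at h3
    exact h3.trans (add_comm _ _)
  set S := sop X hw with hS
  set W : ℝ → X →L[ℂ] X := fun t => (Real.exp (w * |t|)) •
    ((BoundedContinuousFunction.evalCLM ℂ t).comp (R.comp S)) with hW
  have hWv : ∀ t f, W t f = Real.exp (w * |t|) • (R (S f)) t := fun t f => rfl
  have hvW : ∀ t f, (R (S f)) t = Real.exp (-(w * |t|)) • W t f := by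
    intro t f
    rw [hWv, smul_smul, ← Real.exp_add, neg_add_cancel, Real.exp_zero, one_smul]
  refine ⟨W, ‖R‖ * ‖S‖, w, by positivity, hw, ?_, ?_, ?_, ?_⟩
  · intro f
    have h1 : Continuous fun t : ℝ => Real.exp (w * |t|) := by fun_prop
    exact h1.smul (R (S f)).continuous
  · intro f t
    have h1 := congrArg (fun z : ℝ →ᵇ X => z t) (hRK (S f))
    have h2 : (K (R (S f)) + S f) t = kfun U B w (R (S f)) t + Real.exp (-(w * |t|)) • f := rfl
    simp only [h2] at h1
    rw [hWv, h1]
    unfold kfun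
    rw [smul_add, smul_smul, smul_smul, ← Real.exp_add, add_neg_cancel, Real.exp_zero, one_smul,
      one_smul, add_comm]
    congr 1
    apply intervalIntegral.integral_congr
    intro s _
    simp only
    rw [hWv]
    exact ((G U B s).map_smul_of_tower _ _).symm
  · intro f t
    rw [hWv, norm_smul, Real.norm_eq_abs, abs_of_pos (Real.exp_pos _)]
    have h1 : ‖(R (S f)) t‖ ≤ ‖R‖ * (‖S‖ * ‖f‖) :=
      ((R (S f)).norm_coe_le_norm t).trans ((R.le_opNorm _).trans
        (mul_le_mul_of_nonneg_left (S.le_opNorm f) (norm_nonneg _)))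
    calc _ ≤ Real.exp (w * |t|) * (‖R‖ * (‖S‖ * ‖f‖)) :=
          mul_le_mul_of_nonneg_left h1 (Real.exp_pos _).le
      _ = _ := by ring
  · intro f hf t ht φ hφ
    -- the Picard iterates
    let z : ℕ → (ℝ →ᵇ X) := fun n => Nat.rec 0 (fun _ y => K y + S f) n
    have hz : ∀ n, z (n + 1) = K (z n) + S f := fun n => rfl
    have hzpos : ∀ n, ∀ s, 0 ≤ s → ∀ φ ∈ Φ, 0 ≤ φ (z n s) := by
      intro n
      induction n with
      | zero =>
        intro s _ φ _
        have : z 0 s = 0 := rfl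
        rw [this, map_zero]
      | succ n ih =>
        intro s hs φ hφ
        have h1 : z (n + 1) s = kfun U B w (z n) s + Real.exp (-(w * |s|)) • f := rfl
        rw [h1, map_add]
        apply add_nonneg
        · exact kfun_pos hU B Φ hΦU hΦB (z n).continuous ih s hs φ hφ
        · rw [φ.map_smul_of_tower, Complex.real_smul]
          apply mul_nonneg _ (hf φ hφ)
          exact_mod_cast (Real.exp_pos _).le
    have hzlim : ∀ n, ‖R (S f) - z n‖ ≤ ‖K‖ ^ n * ‖R (S f)‖ := by
      intro n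
      induction n with
      | zero =>
        have : z 0 = 0 := rfl
        rw [this, sub_zero, pow_zero, one_mul]
      | succ n ih =>
        have e : R (S f) - z (n + 1) = K (R (S f) - z n) := by
          rw [hz, map_sub]
          conv_lhs => rw [hRK (S f)]
          abel
        rw [e]
        refine (K.le_opNorm _).trans ?_
        rw [pow_succ, mul_assoc, mul_comm (‖K‖ ^ n), mul_assoc, mul_comm ‖R (S f)‖]
        exact mul_le_mul_of_nonneg_left ih (norm_nonneg _)
    have hzt : Tendsto z atTop (𝓝 (R (S f))) := by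
      rw [tendsto_iff_norm_sub_tendsto_zero]
      have h0 : Tendsto (fun n => ‖K‖ ^ n * ‖R (S f)‖) atTop (𝓝 0) := by
        simpa using (tendsto_pow_atTop_nhds_zero_of_lt_one (norm_nonneg _) hK).mul_const ‖R (S f)‖
      refine squeeze_zero (fun _ => norm_nonneg _) (fun n => ?_) h0
      rw [norm_sub_rev]; exact hzlim n
    have hev : Tendsto (fun n => φ (z n t)) atTop (𝓝 (φ ((R (S f)) t))) := by
      have h1 := ((BoundedContinuousFunction.evalCLM ℂ t).continuous.tendsto (R (S f))).comp hzt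
      exact (φ.continuous.tendsto _).comp h1
    have hpos : 0 ≤ φ ((R (S f)) t) := ge_of_tendsto' hev (fun n => hzpos n t ht φ hφ)
    rw [hWv, φ.map_smul_of_tower, Complex.real_smul]
    apply mul_nonneg _ hpos
    exact_mod_cast (Real.exp_pos _).le

end picard

end Pool.Agent.X114.GF
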