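import Pool.Agent.X114.GF.GF2

/-! The perturbed semigroup. -/

namespace Pool.Agent.X114.GF

open MeasureTheory Filter Topology Set
open scoped ComplexOrder

set_option linter.unusedSectionVars false

variable {X : Type} [NormedAddCommGroup X] [NormedSpace ℂ X] [CompleteSpace X]

/-- The integral equation of the interaction picture. -/
def Sol (U : ℝ → X →L[ℂ] X) (B : X →L[ℂ] X) (f : X) (z : ℝ → X) : Prop :=
  Continuous z ∧ ∀ t, z t = f + ∫ s in (0 : ℝ)..t, G U B s (z s)

variable {U : ℝ → X →L[ℂ] X} {B : X →L[ℂ] X}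

theorem Sol.zero {f : X} {z : ℝ → X} (hz : Sol U B f z) : z 0 = f := by
  rw [hz.2 0]; simp

theorem Sol.hasDerivAt (hU : IsoGroup U) {f : X} {z : ℝ → X} (hz : Sol U B f z) (t : ℝ) :
    HasDerivAt z (G U B t (z t)) t := by
  have hc := hU.G_cont B hz.1
  have h := intervalIntegral.integral_hasDerivAt_right (hc.intervalIntegrable 0 t)
    (hc.stronglyMeasurableAtFilter _ _) hc.continuousAt
  have h2 := h.const_add f
  exact h2.congr_of_eventuallyEq (Filter.Eventually.of_forall hz.2)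

theorem Sol.unique (hU : IsoGroup U) {f : X} {z z' : ℝ → X} (hz : Sol U B f z)
    (hz' : Sol U B f z') : z = z' := by
  refine ODE_solution_unique_univ (v := fun t x => G U B t x) (s := fun _ => univ)
    (K := ‖B‖₊) (t₀ := 0) (fun t => ?_) (fun t => ⟨hz.hasDerivAt hU t, mem_univ _⟩)
    (fun t => ⟨hz'.hasDerivAt hU t, mem_univ _⟩) (by rw [hz.zero, hz'.zero])
  apply LipschitzWith.lipschitzOnWith
  apply LipschitzWith.of_dist_le_mul
  intro x y
  rw [dist_eq_norm, dist_eq_norm, ← map_sub]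
  exact hU.G_norm B t _

/-- All the properties of the perturbed semigroup that do not depend on the space. -/
theorem exists_V (hU : IsoGroup U) (Φ : Set (X →L[ℂ] ℂ))
    (hΦU : ∀ t f, (∀ φ ∈ Φ, 0 ≤ φ f) → ∀ φ ∈ Φ, 0 ≤ φ (U t f))
    (hΦB : ∀ f, (∀ φ ∈ Φ, 0 ≤ φ f) → ∀ φ ∈ Φ, 0 ≤ φ (B f)) :
    ∃ V : ℝ → X →L[ℂ] X, V 0 = 1 ∧ (∀ s t f, V (s + t) f = V s (V t f)) ∧
      (∀ f, Continuous fun t => V t f) ∧
      (∀ f, Tendsto (fun t : ℝ => ((t⁻¹ : ℝ) : ℂ) • (V t f - U t f)) (𝓝[>] 0) (𝓝 (B f))) ∧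
      (∀ f z, Sol U B f z → ∀ t, V t f = U t (z t)) ∧
      (∀ f, Sol U B f (fun t => U (-t) (V t f))) ∧
      (∃ C w : ℝ, 0 ≤ C ∧ 0 < w ∧ ∀ f t, ‖V t f‖ ≤ C * Real.exp (w * |t|) * ‖f‖) ∧
      (∀ f, (∀ φ ∈ Φ, 0 ≤ φ f) → ∀ t, 0 ≤ t → ∀ φ ∈ Φ, 0 ≤ φ (V t f)) := by
  obtain ⟨W, C, w, hC, hw, hWc, hWe, hWn, hWp⟩ := exists_W hU B Φ hΦU hΦB
  have hsol : ∀ f, Sol U B f (fun t => W t f) := fun f => ⟨hWc f, hWe f⟩
  have hW0 : ∀ f, W 0 f = f := fun f => (hsol f).zero
  refine ⟨fun t => (U t).comp (W t), ?_, ?_, ?_, ?_, ?_, ?_, ⟨C, w, hC, hw, ?_⟩, ?_⟩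
  · ext f
    show U 0 (W 0 f) = f
    rw [hW0, hU.zero]; rfl
  · intro s t f
    show U (s + t) (W (s + t) f) = U s (W s (U t (W t f)))
    -- `z r = U t (W (r + t) f)` solves the equation with initial value `U t (W t f)`
    have hz : Sol U B (U t (W t f)) (fun r => U t (W (r + t) f)) := by
      refine ⟨(U t).continuous.comp ((hWc f).comp (by fun_prop : Continuous fun r : ℝ => r + t)),
        fun r => ?_⟩
      have h1 := hWe f (r + t)
      have h2 := hWe f t
      have hc := hU.G_cont B (hWc f)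
      have h3 : ∫ σ in (0 : ℝ)..(r + t), G U B σ (W σ f) =
          (∫ σ in (0 : ℝ)..t, G U B σ (W σ f)) + ∫ σ in t..(r + t), G U B σ (W σ f) :=
        (intervalIntegral.integral_add_adjacent_intervals (hc.intervalIntegrable _ _)
          (hc.intervalIntegrable _ _)).symm
      have h4 : ∫ σ in t..(r + t), G U B σ (W σ f) =
          ∫ σ in (0 : ℝ)..r, G U B (σ + t) (W (σ + t) f) := by
        rw [intervalIntegral.integral_comp_add_right (fun σ => G U B σ (W σ f)), zero_add]
      show U t (W (r + t) f) = U t (W t f) + ∫ s in (0 : ℝ)..r, G U B s (U t (W (s + t) f))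
      rw [h1, h3, ← add_assoc, ← h2, h4, map_add]
      congr 1
      have hc2 : Continuous fun σ => G U B (σ + t) (W (σ + t) f) :=
        hc.comp (by fun_prop : Continuous fun σ : ℝ => σ + t)
      rw [← (U t).intervalIntegral_comp_comm (hc2.intervalIntegrable 0 r)]
      apply intervalIntegral.integral_congr
      intro σ _
      show U t (U (-(σ + t)) (B (U (σ + t) (W (σ + t) f)))) =
        U (-σ) (B (U σ (U t (W (σ + t) f))))
      rw [← hU.add, ← hU.add]
      congr 2
      ring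
    have := congrFun (hz.unique hU (hsol (U t (W t f)))) s
    rw [← this, ← hU.add]
  · intro f
    exact hU.cont_apply (hWc f)
  · intro f
    simp only [Complex.coe_smul]
    have h1 : HasDerivAt (fun t => W t f) (G U B 0 (W 0 f)) 0 := (hsol f).hasDerivAt hU 0
    have h2 : G U B 0 (W 0 f) = B f := by
      rw [hW0]
      show U (-0) (B (U 0 f)) = B f
      rw [neg_zero, hU.zero]; rfl
    rw [h2] at h1
    have h3 : Tendsto (fun t : ℝ => t⁻¹ • (W t f - f)) (𝓝[>] 0) (𝓝 (B f)) := by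
      have := h1.tendsto_slope_zero_right
      simpa [hW0] using this
    rw [tendsto_iff_norm_sub_tendsto_zero] at h3 ⊢
    have h4 : Tendsto (fun t : ℝ => ‖U t (B f) - B f‖) (𝓝[>] 0) (𝓝 0) := by
      have : Continuous fun t => ‖U t (B f) - B f‖ :=
        ((hU.cont (B f)).sub continuous_const).norm
      have h := this.tendsto 0
      have e : ‖U 0 (B f) - B f‖ = 0 := by
        rw [hU.zero]
        show ‖B f - B f‖ = 0
        rw [sub_self, norm_zero]
      rw [e] at h
      exact h.mono_left nhdsWithin_le_nhds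
    have h5 := h3.add h4
    rw [add_zero] at h5
    refine squeeze_zero (fun _ => norm_nonneg _) (fun t => ?_) h5
    have e : t⁻¹ • (((U t).comp (W t)) f - U t f) - B f =
        U t (t⁻¹ • (W t f - f) - B f) + (U t (B f) - B f) := by
      rw [map_sub, (U t).map_smul_of_tower, map_sub]
      simp only [ContinuousLinearMap.comp_apply]
      abel
    rw [e]
    refine (norm_add_le _ _).trans ?_
    rw [hU.norm]
  · intro f z hz t
    have := congrFun (hz.unique hU (hsol f)) t
    show U t (W t f) = U t (z t)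
    rw [this]
  · intro f
    have e : (fun t => U (-t) (((U t).comp (W t)) f)) = fun t => W t f := by
      funext t
      exact hU.neg_apply t _
    rw [e]
    exact hsol f
  · intro f t
    show ‖U t (W t f)‖ ≤ _
    rw [hU.norm]; exact hWn f t
  · intro f hf t ht
    exact hΦU t _ (hWp f hf t ht)

end Pool.Agent.X114.GF
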