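import Pool.Agent.X114.GF.GF3
import Pool.Agent.X114.GF.Defs

/-! Rank-one perturbations: compactness, the eigenvector, spectra. -/

namespace Pool.Agent.X114.GF

open MeasureTheory Filter Topology Set
open scoped ComplexOrder

set_option linter.unusedSectionVars false

variable {X : Type} [NormedAddCommGroup X] [NormedSpace ℂ X] [CompleteSpace X]

/-- The rank-one operator `f ↦ l f • y`. -/
noncomputable def rk (l : X →L[ℂ] ℂ) (y : X) : X →L[ℂ] X := l.smulRight y

theorem rk_apply (l : X →L[ℂ] ℂ) (y f : X) : rk l y f = l f • y := rfl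

theorem rk_compact (l : X →L[ℂ] ℂ) (y : X) : IsCompactOperator (rk l y) := by
  have h : IsCompactOperator (ContinuousLinearMap.toSpanSingleton ℂ y) :=
    isCompactOperator_of_locallyCompactSpace_rng _
  have h2 := h.comp_clm l
  exact h2

variable {U V : ℝ → X →L[ℂ] X} {l : X →L[ℂ] ℂ} {b : X}

theorem compact_diff (hU : IsoGroup U) (hVc : ∀ f, Continuous fun t => V t f)
    (hVs : ∀ f, Sol U (rk l b) f (fun t => U (-t) (V t f)))
    {C w : ℝ} (hC : 0 ≤ C) (hw : 0 < w) (hVn : ∀ f t, ‖V t f‖ ≤ C * Real.exp (w * |t|) * ‖f‖)
    (t : ℝ) (ht : 0 ≤ t) : IsCompactOperator (V t - U t) := by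
  -- the difference in the interaction picture
  set D : X →L[ℂ] X := (U (-t)).comp (V t - U t) with hD
  have hGb : ∀ f s, G U (rk l b) s (U (-s) (V s f)) = l (V s f) • U (-s) b := by
    intro f s
    show U (-s) (l (U s (U (-s) (V s f))) • b) = _
    rw [hU.apply_neg, map_smul]
  have hbc : Continuous fun s => U (-s) b := hU.cont_neg_apply continuous_const
  have hlc : ∀ f, Continuous fun s => l (V s f) := fun f => l.continuous.comp (hVc f)
  have hsb : ∀ f, Continuous fun s => l (V s f) • U (-s) b := fun f => (hlc f).smul hbc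
  have hsc : ∀ f (c : X), Continuous fun s => l (V s f) • c := fun f c =>
    (hlc f).smul continuous_const
  have hDf : ∀ f, D f = ∫ s in (0 : ℝ)..t, l (V s f) • U (-s) b := by
    intro f
    have h1 := (hVs f).2 t
    have h2 : D f = U (-t) (V t f) - f := by
      show U (-t) (V t f - U t f) = _
      rw [map_sub, hU.neg_apply]
    simp only [hGb] at h1
    rw [h2, h1, add_sub_cancel_left]
  set M : ℝ := C * Real.exp (w * t) with hM
  have hM0 : 0 ≤ M := by positivity
  have hVM : ∀ f s, 0 ≤ s → s ≤ t → ‖V s f‖ ≤ M * ‖f‖ := by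
    intro f s hs1 hs2
    refine (hVn f s).trans ?_
    apply mul_le_mul_of_nonneg_right _ (norm_nonneg _)
    apply mul_le_mul_of_nonneg_left _ hC
    rw [abs_of_nonneg hs1]
    exact Real.exp_le_exp.2 (mul_le_mul_of_nonneg_left hs2 hw.le)
  -- functionals
  have hphi : ∀ p q : ℝ, 0 ≤ p → p ≤ q → q ≤ t → ∃ φ : X →L[ℂ] ℂ,
      ∀ f, φ f = ∫ s in p..q, l (V s f) := by
    intro p q hp hpq hq
    refine ⟨LinearMap.mkContinuous
      { toFun := fun f => ∫ s in p..q, l (V s f)
        map_add' := fun f g => by
          rw [← intervalIntegral.integral_add ((hlc f).intervalIntegrable _ _)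
            ((hlc g).intervalIntegrable _ _)]
          simp only [map_add]
        map_smul' := fun c f => by
          simp only [map_smul, RingHom.id_apply]
          exact intervalIntegral.integral_smul c _ } (‖l‖ * M * |q - p|) (fun f => ?_),
      fun f => rfl⟩
    have := intervalIntegral.norm_integral_le_of_norm_le_const (a := p) (b := q)
      (C := ‖l‖ * M * ‖f‖) (f := fun s => l (V s f)) (fun s hs => by
        rw [uIoc_of_le hpq] at hs
        refine (l.le_opNorm _).trans ?_
        rw [mul_assoc]
        exact mul_le_mul_of_nonneg_left (hVM f s (hp.trans hs.1.le) (hs.2.trans hq))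
          (norm_nonneg _))
    show ‖∫ s in p..q, l (V s f)‖ ≤ _
    refine this.trans (le_of_eq ?_)
    ring
  have hcompD : IsCompactOperator D := by
    have hcl : IsClosed {T : X →L[ℂ] X | IsCompactOperator T} :=
      isClosed_setOfPred_isCompactOperator
    have hmem : D ∈ closure {T : X →L[ℂ] X | IsCompactOperator T} := by
      rw [Metric.mem_closure_iff]
      intro ε hε
      set δ : ℝ := ε / (2 * (‖l‖ * M * t + 1)) with hδ
      have hpos1 : 0 < ‖l‖ * M * t + 1 := by positivity
      have hδ0 : 0 < δ := by positivity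
      -- uniform continuity of the orbit
      have hc0 : Tendsto (fun s => U (-s) b) (𝓝 0) (𝓝 b) := by
        have h := hbc.tendsto 0
        have e : U (-0) b = b := by rw [neg_zero, hU.zero]; rfl
        rwa [e] at h
      obtain ⟨η, hη0, hη⟩ := Metric.tendsto_nhds_nhds.1 hc0 δ hδ0
      obtain ⟨N, hN⟩ := exists_nat_gt (t / η)
      have hNpos : (0 : ℝ) < N := lt_of_le_of_lt (by positivity) hN
      have hN0 : 0 < N := by exact_mod_cast hNpos
      set τ : ℕ → ℝ := fun j => t * (j / N) with hτ
      have hτ0 : ∀ j, 0 ≤ τ j := fun j => by positivity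
      have hτle : ∀ j, τ j ≤ τ (j + 1) := by
        intro j
        simp only [hτ]
        apply mul_le_mul_of_nonneg_left _ ht
        apply div_le_div_of_nonneg_right _ hNpos.le
        push_cast; linarith
      have hτt : ∀ j, j ≤ N → τ j ≤ t := by
        intro j hj
        simp only [hτ]
        apply mul_le_of_le_one_right ht
        rw [div_le_one hNpos]
        exact_mod_cast hj
      have hτstep : ∀ j, τ (j + 1) - τ j = t / N := by
        intro j
        simp only [hτ]
        push_cast
        field_simp
        ring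
      have hstep : t / N < η := by
        rw [div_lt_iff₀ hη0] at hN
        rw [div_lt_iff₀ hNpos]
        linarith
      have hφ : ∀ j : Fin N, ∃ φ : X →L[ℂ] ℂ, ∀ f, φ f = ∫ s in τ j..τ (j + 1), l (V s f) :=
        fun j => hphi _ _ (hτ0 _) (hτle _) (hτt _ j.2)
      choose φ hφ using hφ
      refine ⟨∑ j : Fin N, rk (φ j) (U (-(τ j)) b), ?_, ?_⟩
      · have : ∀ s : Finset (Fin N),
            IsCompactOperator (∑ j ∈ s, rk (φ j) (U (-(τ j)) b) : X →L[ℂ] X) := by
          classical
          intro s
          induction s using Finset.induction_on with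
          | empty =>
            rw [Finset.sum_empty]
            exact isCompactOperator_zero
          | insert j s hj ih =>
            rw [Finset.sum_insert hj]
            exact (rk_compact _ _).add ih
        exact this _
      · rw [dist_eq_norm]
        have hb : ‖D - ∑ j : Fin N, rk (φ j) (U (-(τ j)) b)‖ ≤ ‖l‖ * M * t * δ := by
          apply ContinuousLinearMap.opNorm_le_bound _ (by positivity)
          intro f
          have hsplit : D f = ∑ j ∈ Finset.range N,
              ∫ s in τ j..τ (j + 1), l (V s f) • U (-s) b := by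
            rw [intervalIntegral.sum_integral_adjacent_intervals (fun k _ =>
              (hsb f).intervalIntegrable _ _), hDf]
            have e0 : τ 0 = 0 := by simp [hτ]
            have e1 : τ N = t := by simp only [hτ]; field_simp
            rw [e0, e1]
          have hsum : (∑ j : Fin N, rk (φ j) (U (-(τ j)) b)) f =
              ∑ j ∈ Finset.range N, ∫ s in τ j..τ (j + 1), l (V s f) • U (-(τ j)) b := by
            rw [sum_apply]
            rw [← Fin.sum_univ_eq_sum_range (fun j : ℕ =>
              ∫ s in τ j..τ (j + 1), l (V s f) • U (-(τ j)) b) N]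
            apply Finset.sum_congr rfl
            intro j _
            rw [rk_apply, hφ, intervalIntegral.integral_smul_const]
          rw [sub_apply, hsplit, hsum, ← Finset.sum_sub_distrib]
          have hterm : ∀ j ∈ Finset.range N,
              ‖(∫ s in τ j..τ (j + 1), l (V s f) • U (-s) b) -
                ∫ s in τ j..τ (j + 1), l (V s f) • U (-(τ j)) b‖ ≤
              ‖l‖ * M * ‖f‖ * δ * (t / N) := by
            intro j hj
            have hj' : j + 1 ≤ N := Finset.mem_range.1 hj
            rw [← intervalIntegral.integral_sub ((hsb f).intervalIntegrable _ _)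
              ((hsc f _).intervalIntegrable _ _)]
            have := intervalIntegral.norm_integral_le_of_norm_le_const (a := τ j)
              (b := τ (j + 1)) (C := ‖l‖ * M * ‖f‖ * δ)
              (f := fun s => l (V s f) • U (-s) b - l (V s f) • U (-(τ j)) b) (fun s hs => by
                rw [uIoc_of_le (hτle j)] at hs
                rw [← smul_sub, norm_smul]
                have h1 : ‖l (V s f)‖ ≤ ‖l‖ * M * ‖f‖ := by
                  refine (l.le_opNorm _).trans ?_
                  rw [mul_assoc]
                  exact mul_le_mul_of_nonneg_left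
                    (hVM f s ((hτ0 j).trans hs.1.le) (hs.2.trans (hτt _ hj'))) (norm_nonneg _)
                have h2 : ‖U (-s) b - U (-(τ j)) b‖ ≤ δ := by
                  have e : U (-s) b - U (-(τ j)) b =
                      U (-(τ j)) (U (-(s - τ j)) b - b) := by
                    rw [map_sub, ← hU.add]
                    congr 3
                    ring
                  rw [e, hU.norm]
                  have h3 : dist (s - τ j) 0 < η := by
                    rw [Real.dist_eq, sub_zero, abs_of_nonneg (by linarith [hs.1])]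
                    have := hτstep j
                    linarith [hs.2]
                  have h4 := hη h3
                  rw [dist_eq_norm] at h4
                  exact h4.le
                exact mul_le_mul h1 h2 (norm_nonneg _) (by positivity))
            rw [hτstep j, abs_of_nonneg (by positivity)] at this
            exact this
          refine (norm_sum_le_of_le _ hterm).trans (le_of_eq ?_)
          rw [Finset.sum_const, Finset.card_range, nsmul_eq_mul]
          field_simp
        refine lt_of_le_of_lt hb ?_
        have e : ‖l‖ * M * t * δ = ε / 2 * ((‖l‖ * M * t) / (‖l‖ * M * t + 1)) := by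
          rw [hδ]; field_simp
        rw [e]
        have h1 : (‖l‖ * M * t) / (‖l‖ * M * t + 1) ≤ 1 := by
          rw [div_le_one hpos1]; linarith
        nlinarith
    rw [hcl.closure_eq] at hmem
    exact hmem
  have e : (V t - U t : X →L[ℂ] X) = (U t).comp D := by
    ext f
    show V t f - U t f = U t (U (-t) (V t f - U t f))
    rw [hU.apply_neg]
  rw [e]
  exact hcompD.clm_comp (U t)

theorem ess_le_one {T S : X →L[ℂ] X} (hS : ‖S‖ ≤ 1) (hc : IsCompactOperator (T - S)) :
    essSpectralRadius T ≤ 1 := by
  refine iSup₂_le fun z hz => ?_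
  by_contra hlt
  push Not at hlt
  apply hz
  have hz1 : 1 < ‖z‖ := by exact_mod_cast hlt
  have hres : z ∈ resolventSet ℂ S := by
    apply spectrum.mem_resolventSet_of_norm_lt_mul
    refine lt_of_le_of_lt ?_ hz1
    exact mul_le_one₀ hS (norm_nonneg _) ContinuousLinearMap.norm_id_le
  rw [spectrum.mem_resolventSet_iff] at hres
  obtain ⟨R, hR1, hR2⟩ := isUnit_iff_exists.1 hres
  have e : algebraMap ℂ (X →L[ℂ] X) z - T = (algebraMap ℂ (X →L[ℂ] X) z - S) + -(T - S) := by abel
  refine ⟨R, R * -(T - S), -(T - S) * R, ?_, ?_, ?_, ?_⟩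
  · exact (hc.neg).clm_comp R
  · exact (hc.neg).comp_clm R
  · rw [e, mul_add, hR2]
  · rw [e, add_mul, hR1]

theorem le_spectralRadius {T : X →L[ℂ] X} {u : X} (hu : u ≠ 0) {r : ℝ} (hr : 0 ≤ r)
    (h : T u = (r : ℂ) • u) : ENNReal.ofReal r ≤ spectralRadius ℂ T := by
  have hmem : (r : ℂ) ∈ spectrum ℂ T := by
    rw [spectrum.mem_iff]
    intro hun
    obtain ⟨R, hR1, hR2⟩ := isUnit_iff_exists.1 hun
    apply hu
    have h1 := congrArg (fun A : X →L[ℂ] X => A u) hR2
    have h2 : (algebraMap ℂ (X →L[ℂ] X) (r : ℂ) - T) u = 0 := by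
      show (algebraMap ℂ (X →L[ℂ] X) (r : ℂ)) u - T u = 0
      rw [h, Algebra.algebraMap_eq_smul_one]
      show (r : ℂ) • u - (r : ℂ) • u = 0
      exact sub_self _
    have h3 : R ((algebraMap ℂ (X →L[ℂ] X) (r : ℂ) - T) u) = u := h1
    rw [h2, map_zero] at h3
    exact h3.symm
  refine le_trans (le_of_eq ?_) (le_iSup₂ (f := fun (k : ℂ) (_ : k ∈ spectrum ℂ T) =>
    (‖k‖₊ : ENNReal)) (r : ℂ) hmem)
  rw [ENNReal.ofReal_eq_coe_nnreal hr]
  congr 1
  apply NNReal.eq
  show r = ‖(r : ℂ)‖
  rw [Complex.norm_real, Real.norm_eq_abs, abs_of_nonneg hr]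

/-- The eigenvector of the rank-one perturbation. -/
theorem eigen (hU : IsoGroup U) (hVz : ∀ f z, Sol U (rk l b) f z → ∀ t, V t f = U t (z t))
    {c : ℝ} (hc : 0 < c) (h1 : ∫ σ in Ioi (0 : ℝ), (Real.exp (-(c * σ)) : ℂ) * l (U σ b) = 1) :
    ∃ u : X, u ≠ 0 ∧ ∀ t, V t u = (Real.exp (c * t) : ℂ) • u := by
  set F : ℝ → X := fun σ => (Real.exp (-(c * σ)) : ℂ) • U σ b with hF
  have hFc : Continuous F := by
    have h2 : Continuous fun σ : ℝ => (Real.exp (-(c * σ)) : ℂ) := by fun_prop
    exact h2.smul (hU.cont b)
  have hFn : ∀ σ, ‖F σ‖ = Real.exp (-(c * σ)) * ‖b‖ := by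
    intro σ
    simp only [hF]
    rw [norm_smul, hU.norm, Complex.norm_real, Real.norm_eq_abs, abs_of_pos (Real.exp_pos _)]
  have hFi : ∀ a, IntegrableOn F (Ioi a) := by
    intro a
    have h3 : IntegrableOn (fun σ => Real.exp (-c * σ) * ‖b‖) (Ioi a) :=
      (integrableOn_exp_mul_Ioi (by linarith) a).mul_const _
    refine h3.mono' hFc.aestronglyMeasurable ?_
    filter_upwards with σ
    rw [hFn]
    apply le_of_eq
    congr 2; ring
  set u : X := ∫ σ in Ioi (0 : ℝ), F σ with hu
  have hlu : l u = 1 := by
    rw [hu, ← l.integral_comp_comm (hFi 0), ← h1]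
    simp only [hF, map_smul, smul_eq_mul]
  refine ⟨u, fun h0 => ?_, fun t => ?_⟩
  · rw [h0, map_zero] at hlu
    exact zero_ne_one hlu
  · have key : ∀ t, (Real.exp (c * t) : ℂ) • U (-t) u =
        u + ∫ s in (0 : ℝ)..t, F (-s) := by
      intro t
      have h2 : (Real.exp (c * t) : ℂ) • U (-t) u = ∫ σ in Ioi (0 : ℝ), F (σ - t) := by
        rw [hu, ← (U (-t)).integral_comp_comm (hFi 0), ← integral_smul]
        apply integral_congr_ae
        filter_upwards with σ
        simp only [hF]
        rw [map_smul, smul_smul, ← hU.add]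
        congr 1
        · rw [← Complex.ofReal_mul, ← Real.exp_add]
          congr 2; ring
        · congr 2; ring
      have h3 : ∫ σ in Ioi (0 : ℝ), F (σ - t) = ∫ σ in Ioi (-t), F σ := by
        have := (measurePreserving_sub_right volume t).setIntegral_preimage_emb
          (MeasurableEquiv.subRight t).measurableEmbedding F (Ioi (-t))
        rw [← this]
        congr 1
        ext x
        simp
      have h4 := intervalIntegral.integral_interval_add_Ioi (hFi (-t)) (hFi 0)
      rw [h2, h3, ← h4, add_comm]
      congr 1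
      rw [intervalIntegral.integral_comp_neg]
      simp
    have hsol : Sol U (rk l b) u (fun t => (Real.exp (c * t) : ℂ) • U (-t) u) := by
      refine ⟨?_, fun t => ?_⟩
      · have h2 : Continuous fun t : ℝ => (Real.exp (c * t) : ℂ) := by fun_prop
        exact h2.smul (hU.cont_neg_apply continuous_const)
      · refine (key t).trans ?_
        congr 1
        apply intervalIntegral.integral_congr
        intro s _
        show F (-s) = U (-s) (l (U s ((Real.exp (c * s) : ℂ) • U (-s) u)) • b)
        rw [(U (-s)).map_smul, (U s).map_smul, hU.apply_neg, l.map_smul, hlu]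
        simp only [hF, smul_eq_mul, mul_one]
        congr 3
        ring
    rw [hVz u _ hsol t, map_smul, hU.apply_neg]

end Pool.Agent.X114.GF
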