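import Pool.Agent.X114.GF.GF1
import Pool.Agent.X114.GF.GF4

/-! The concrete rank-one perturbation on `L¹((0,∞), x dx)`. -/

namespace Pool.Agent.X114.GF

open MeasureTheory Filter Topology Set
open scoped ComplexOrder

theorem isoGroup_U : IsoGroup (U : ℝ → X1 →L[ℂ] X1) := ⟨U_zero, U_add, U_norm, U_continuous⟩

theorem int_X1 (f : X1) : Integrable (f : ℝ → ℂ) mu :=
  memLp_one_iff_integrable.1 (Lp.memLp f)

/-- Integration over a set. -/
noncomputable def phi (A : Set ℝ) : X1 →L[ℂ] ℂ :=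
  LinearMap.mkContinuous
    { toFun := fun f => ∫ x in A, f x ∂mu
      map_add' := fun f g => by
        rw [← integral_add (int_X1 f).integrableOn (int_X1 g).integrableOn]
        apply integral_congr_ae
        exact ae_restrict_of_ae (Lp.coeFn_add f g)
      map_smul' := fun c f => by
        simp only [RingHom.id_apply, smul_eq_mul]
        rw [← integral_const_mul]
        apply integral_congr_ae
        filter_upwards [ae_restrict_of_ae (Lp.coeFn_smul c f)] with x hx
        rw [hx]; rfl } 1 (fun f => by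
      rw [one_mul, L1.norm_eq_integral_norm]
      refine (norm_integral_le_integral_norm _).trans ?_
      exact setIntegral_le_integral (int_X1 f).norm (Eventually.of_forall fun x => norm_nonneg _))

theorem phi_apply (A : Set ℝ) (f : X1) : phi A f = ∫ x in A, f x ∂mu := rfl

/-- The family of functionals. -/
def Phi : Set (X1 →L[ℂ] ℂ) := {φ | ∃ A, MeasurableSet A ∧ φ = phi A}

theorem re_int (f : X1) (A : Set ℝ) : (∫ x in A, f x ∂mu).re = ∫ x in A, (f x).re ∂mu :=
  (Complex.reCLM.integral_comp_comm (int_X1 f).integrableOn).symm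

theorem im_int (f : X1) (A : Set ℝ) : (∫ x in A, f x ∂mu).im = ∫ x in A, (f x).im ∂mu :=
  (Complex.imCLM.integral_comp_comm (int_X1 f).integrableOn).symm

theorem pos_iff (f : X1) : (∀ᵐ x ∂mu, 0 ≤ f x) ↔ ∀ φ ∈ Phi, 0 ≤ φ f := by
  constructor
  · rintro h _ ⟨A, hA, rfl⟩
    rw [phi_apply, Complex.nonneg_iff, re_int, im_int]
    constructor
    · apply integral_nonneg_of_ae
      filter_upwards [ae_restrict_of_ae h] with x hx
      exact (Complex.nonneg_iff.1 hx).1
    · have : ∫ x in A, (f x).im ∂mu = ∫ x in A, (0 : ℝ) ∂mu := by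
        apply integral_congr_ae
        filter_upwards [ae_restrict_of_ae h] with x hx
        exact (Complex.nonneg_iff.1 hx).2.symm
      rw [this]; simp
  · intro h
    have hre : 0 ≤ᵐ[mu] fun x => (f x).re := by
      apply ae_nonneg_of_forall_setIntegral_nonneg (int_X1 f).re
      intro A hA _
      have := h (phi A) ⟨A, hA, rfl⟩
      rw [phi_apply, Complex.nonneg_iff, re_int] at this
      exact this.1
    have him : (fun x => (f x).im) =ᵐ[mu] 0 := by
      apply (int_X1 f).im.ae_eq_zero_of_forall_setIntegral_eq_zero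
      intro A hA _
      have := h (phi A) ⟨A, hA, rfl⟩
      rw [phi_apply, Complex.nonneg_iff, im_int] at this
      exact this.2.symm
    filter_upwards [hre, him] with x h1 h2
    rw [Complex.nonneg_iff]
    exact ⟨h1, h2.symm⟩

theorem setIntegral_mu {A : Set ℝ} (hA : MeasurableSet A) (f : ℝ → ℂ) :
    ∫ x in A, f x ∂mu = ∫ x in A ∩ Ioi 0, (x : ℂ) * f x := by
  unfold mu
  rw [restrict_withDensity hA, integral_withDensity_eq_integral_toReal_smul
    ENNReal.measurable_ofReal (Eventually.of_forall fun x => ENNReal.ofReal_lt_top),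
    Measure.restrict_restrict hA]
  apply setIntegral_congr_fun (hA.inter measurableSet_Ioi)
  intro x hx
  simp only
  rw [ENNReal.toReal_ofReal (le_of_lt hx.2), Complex.real_smul]

/-- The functional `∫_1^∞ y f(y) dy`. -/
noncomputable def ell : X1 →L[ℂ] ℂ := phi (Ici 1)

theorem ell_apply (f : X1) : ell f = ∫ x in Ici (1 : ℝ), (x : ℂ) * f x := by
  unfold ell
  rw [phi_apply, setIntegral_mu measurableSet_Ici]
  congr 2
  ext x
  simp only [mem_inter_iff, mem_Ici, mem_Ioi]
  constructor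
  · exact fun h => h.1
  · exact fun h => ⟨h, by linarith⟩

theorem mu_Ioo_ne : mu (Ioo 0 1) ≠ ⊤ :=
  ((measure_mono Ioo_subset_Icc_self).trans_lt isCompact_Icc.measure_lt_top).ne

/-- The source `2 · 1_{(0,1)}`. -/
noncomputable def beta : X1 := indicatorConstLp 1 measurableSet_Ioo mu_Ioo_ne (2 : ℂ)

theorem beta_coe : (beta : ℝ → ℂ) =ᵐ[mu] (Ioo (0 : ℝ) 1).indicator fun _ => (2 : ℂ) :=
  indicatorConstLp_coeFn

theorem U_pos (t : ℝ) (f : X1) (h : ∀ φ ∈ Phi, 0 ≤ φ f) : ∀ φ ∈ Phi, 0 ≤ φ (U t f) := by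
  rw [← pos_iff] at h ⊢
  filter_upwards [U_coe t f, (qmp t).ae h] with x h1 h2
  rw [h1]
  simp only [sc]
  apply mul_nonneg _ h2
  exact_mod_cast (Real.exp_pos _).le

theorem B_pos (f : X1) (h : ∀ φ ∈ Phi, 0 ≤ φ f) : ∀ φ ∈ Phi, 0 ≤ φ (rk ell beta f) := by
  have h0 : 0 ≤ ell f := h _ ⟨_, measurableSet_Ici, rfl⟩
  rw [← pos_iff]
  rw [rk_apply]
  filter_upwards [Lp.coeFn_smul (ell f) beta, beta_coe] with x h1 h2
  rw [h1]
  simp only [Pi.smul_apply, smul_eq_mul]
  rw [h2]
  apply mul_nonneg h0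
  simp only [indicator]
  split_ifs
  · norm_num
  · exact le_rfl

theorem ell_U_beta {t : ℝ} (ht : 0 ≤ t) : ell (U t beta) = ((1 - Real.exp (-(2 * t)) : ℝ) : ℂ) := by
  unfold ell
  rw [phi_apply]
  have h1 : ∫ x in Ici (1 : ℝ), (U t beta : ℝ → ℂ) x ∂mu =
      ∫ x in Ici (1 : ℝ), sc t ((Ioo (0 : ℝ) 1).indicator fun _ => (2 : ℂ)) x ∂mu := by
    apply integral_congr_ae
    apply ae_restrict_of_ae
    filter_upwards [U_coe t beta, (qmp t).ae beta_coe] with x hx hx2
    rw [hx]
    simp only [sc]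
    rw [hx2]
  rw [h1, setIntegral_mu measurableSet_Ici]
  have hset : Ici (1 : ℝ) ∩ Ioi 0 = Ici 1 := by
    ext x
    simp only [mem_inter_iff, mem_Ici, mem_Ioi]
    constructor
    · exact fun h => h.1
    · exact fun h => ⟨h, by linarith⟩
  rw [hset]
  have hpt : ∀ x ∈ Ici (1 : ℝ), (x : ℂ) * sc t ((Ioo (0 : ℝ) 1).indicator fun _ => (2 : ℂ)) x =
      (Ico (1 : ℝ) (Real.exp t)).indicator
        (fun x => ((2 * Real.exp (-(2 * t)) * x : ℝ) : ℂ)) x := by
    intro x hx
    have hx1 : (1 : ℝ) ≤ x := hx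
    simp only [sc, indicator]
    have hiff : Real.exp (-t) * x ∈ Ioo (0 : ℝ) 1 ↔ x ∈ Ico (1 : ℝ) (Real.exp t) := by
      simp only [mem_Ioo, mem_Ico]
      constructor
      · rintro ⟨_, h2⟩
        refine ⟨hx1, ?_⟩
        have := mul_lt_mul_of_pos_left h2 (Real.exp_pos t)
        rwa [← mul_assoc, ← Real.exp_add, add_neg_cancel, Real.exp_zero, one_mul, mul_one] at this
      · rintro ⟨_, h2⟩
        refine ⟨mul_pos (Real.exp_pos _) (by linarith), ?_⟩
        have := mul_lt_mul_of_pos_left h2 (Real.exp_pos (-t))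
        rwa [← Real.exp_add, neg_add_cancel, Real.exp_zero] at this
    by_cases hm : x ∈ Ico (1 : ℝ) (Real.exp t)
    · rw [if_pos hm, if_pos (hiff.2 hm)]
      push_cast; ring
    · rw [if_neg hm, if_neg (fun h => hm (hiff.1 h))]
      ring
  rw [setIntegral_congr_fun measurableSet_Ici hpt, setIntegral_indicator measurableSet_Ico]
  have hset2 : Ici (1 : ℝ) ∩ Ico 1 (Real.exp t) = Ico 1 (Real.exp t) := by
    ext x; simp only [mem_inter_iff, mem_Ici, mem_Ico]; tauto
  rw [hset2, integral_complex_ofReal]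
  congr 1
  rw [integral_Ico_eq_integral_Ioo, ← integral_Ioc_eq_integral_Ioo,
    ← intervalIntegral.integral_of_le (Real.one_le_exp ht), intervalIntegral.integral_const_mul,
    integral_id]
  have : Real.exp (-(2 * t)) * Real.exp t ^ 2 = 1 := by
    rw [← Real.exp_nat_mul, ← Real.exp_add]; push_cast; simp
  linear_combination this

/-- The eigenvalue. -/
noncomputable def ev : ℝ := Real.sqrt 3 - 1

theorem ev_pos : 0 < ev := by
  unfold ev
  have : (1 : ℝ) < Real.sqrt 3 := by
    rw [Real.lt_sqrt (by norm_num)]; norm_num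
  linarith

theorem ev_eq : ev * (ev + 2) = 2 := by
  unfold ev
  have : Real.sqrt 3 ^ 2 = 3 := Real.sq_sqrt (by norm_num)
  nlinarith

theorem char_eq : ∫ σ in Ioi (0 : ℝ), (Real.exp (-(ev * σ)) : ℂ) * ell (U σ beta) = 1 := by
  have h1 : ∫ σ in Ioi (0 : ℝ), (Real.exp (-(ev * σ)) : ℂ) * ell (U σ beta) =
      ∫ σ in Ioi (0 : ℝ), ((Real.exp (-ev * σ) - Real.exp (-(ev + 2) * σ) : ℝ) : ℂ) := by
    apply setIntegral_congr_fun measurableSet_Ioi
    intro σ hσ
    simp only
    rw [ell_U_beta (le_of_lt hσ), ← Complex.ofReal_mul]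
    congr 1
    rw [mul_sub, mul_one, ← Real.exp_add]
    congr 2 <;> ring_nf
  rw [h1, integral_complex_ofReal]
  have hp := ev_pos
  rw [integral_sub (integrableOn_exp_mul_Ioi (by linarith) 0)
    (integrableOn_exp_mul_Ioi (by linarith) 0), integral_exp_mul_Ioi (by linarith),
    integral_exp_mul_Ioi (by linarith)]
  have h2 := ev_eq
  simp only [mul_zero, Real.exp_zero]
  have h3 : (-1 : ℝ) / -ev - -1 / -(ev + 2) = 1 := by
    have : ev + 2 ≠ 0 := by linarith
    field_simp
    linarith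
  rw [h3]; simp

end Pool.Agent.X114.GF
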