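import Pool.Agent.X114.GF.GF5

/-! Weighted composition operators and the flow with rate `x` below `1` and `2x` above `1`. -/

namespace Pool.Agent.X114.GF

open MeasureTheory Filter Topology Set
open scoped ComplexOrder

/-- Mass preserving weighted compositions. -/
structure WC (k w : ℝ → ℝ) : Prop where
  km : Measurable k
  wm : Measurable w
  wpos : ∀ x, 0 < w x
  int : ∀ g : ℝ → ENNReal, Measurable g →
    ∫⁻ x, ENNReal.ofReal (w x) * g (k x) ∂mu = ∫⁻ x, g x ∂mu

namespace WC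

variable {k w : ℝ → ℝ} (h : WC k w)

include h

theorem qmp : Measure.QuasiMeasurePreserving k mu mu := by
  refine ⟨h.km, ?_⟩
  refine Measure.AbsolutelyContinuous.mk fun A hA hA0 => ?_
  rw [Measure.map_apply h.km hA]
  have h1 := h.int (A.indicator 1) (measurable_one.indicator hA)
  rw [lintegral_indicator_one hA, hA0] at h1
  have hm : Measurable fun x => ENNReal.ofReal (w x) * A.indicator (1 : ℝ → ENNReal) (k x) :=
    (ENNReal.measurable_ofReal.comp h.wm).mul ((measurable_one.indicator hA).comp h.km)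
  rw [lintegral_eq_zero_iff hm] at h1
  have h2 : ∀ᵐ x ∂mu, x ∉ k ⁻¹' A := by
    filter_upwards [h1] with x hx hxA
    have h3 : A.indicator (1 : ℝ → ENNReal) (k x) = 1 := by
      rw [indicator_of_mem (show k x ∈ A from hxA)]; rfl
    simp only [Pi.zero_apply, h3, mul_one] at hx
    rw [ENNReal.ofReal_eq_zero] at hx
    linarith [h.wpos x]
  exact measure_eq_zero_iff_ae_notMem.2 h2

omit h in
/-- The weighted composition, on functions. -/
noncomputable def fn (k w : ℝ → ℝ) (f : ℝ → ℂ) : ℝ → ℂ := fun x => (w x : ℂ) * f (k x)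

theorem fn_aesm {f : ℝ → ℂ} (hf : AEStronglyMeasurable f mu) :
    AEStronglyMeasurable (fn k w f) mu :=
  ((Complex.measurable_ofReal.comp h.wm).aestronglyMeasurable).mul
    (hf.comp_quasiMeasurePreserving h.qmp)

theorem fn_eLpNorm {f : ℝ → ℂ} (hf : AEStronglyMeasurable f mu) :
    eLpNorm (fn k w f) 1 mu = eLpNorm f 1 mu := by
  rw [eLpNorm_one_eq_lintegral_enorm, eLpNorm_one_eq_lintegral_enorm]
  set g : ℝ → ℂ := hf.mk f with hg
  have hgm : Measurable g := hf.stronglyMeasurable_mk.measurable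
  have h1 : ∫⁻ x, ‖f x‖ₑ ∂mu = ∫⁻ x, ‖g x‖ₑ ∂mu :=
    lintegral_congr_ae (hf.ae_eq_mk.mono fun x hx => by simp only [hx, hg])
  have h2 : ∫⁻ x, ‖fn k w f x‖ₑ ∂mu = ∫⁻ x, ‖fn k w g x‖ₑ ∂mu := by
    apply lintegral_congr_ae
    filter_upwards [h.qmp.ae hf.ae_eq_mk] with x hx
    simp only [fn, hg]
    rw [hx]
  rw [h1, h2, ← h.int (fun x => ‖g x‖ₑ) hgm.enorm]
  apply lintegral_congr
  intro x
  simp only [fn, enorm_mul]
  congr 1
  rw [← ofReal_norm, Complex.norm_real, Real.norm_eq_abs, abs_of_pos (h.wpos x)]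

theorem fn_memLp {f : ℝ → ℂ} (hf : MemLp f 1 mu) : MemLp (fn k w f) 1 mu :=
  ⟨h.fn_aesm hf.1, by rw [h.fn_eLpNorm hf.1]; exact hf.2⟩

/-- The weighted composition operator. -/
noncomputable def op : X1 →L[ℂ] X1 :=
  LinearMap.mkContinuous
    { toFun := fun f => (h.fn_memLp (Lp.memLp f)).toLp
      map_add' := fun f g => by
        rw [← MemLp.toLp_add]
        apply MemLp.toLp_congr
        filter_upwards [h.qmp.ae (Lp.coeFn_add f g)] with x hx
        simp only [fn, Pi.add_apply] at hx ⊢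
        rw [hx]; ring
      map_smul' := fun c f => by
        simp only [RingHom.id_apply]
        rw [← MemLp.toLp_const_smul]
        apply MemLp.toLp_congr
        filter_upwards [h.qmp.ae (Lp.coeFn_smul c f)] with x hx
        simp only [fn, Pi.smul_apply, smul_eq_mul] at hx ⊢
        rw [hx]; ring } 1 (fun f => by
      simp only [LinearMap.coe_mk, AddHom.coe_mk, one_mul]
      rw [Lp.norm_toLp, h.fn_eLpNorm (Lp.aestronglyMeasurable f), Lp.norm_def])

theorem op_coe (f : X1) : (h.op f : ℝ → ℂ) =ᵐ[mu] fn k w f := by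
  show ((h.fn_memLp (Lp.memLp f)).toLp : ℝ → ℂ) =ᵐ[mu] fn k w f
  exact MemLp.coeFn_toLp _

theorem op_norm (f : X1) : ‖h.op f‖ = ‖f‖ := by
  show ‖(h.fn_memLp (Lp.memLp f)).toLp‖ = ‖f‖
  rw [Lp.norm_toLp, h.fn_eLpNorm (Lp.aestronglyMeasurable f), Lp.norm_def]

theorem op_pos (f : X1) (hf : ∀ φ ∈ Phi, 0 ≤ φ f) : ∀ φ ∈ Phi, 0 ≤ φ (h.op f) := by
  rw [← pos_iff] at hf ⊢
  filter_upwards [h.op_coe f, h.qmp.ae hf] with x h1 h2
  rw [h1]
  simp only [fn]
  apply mul_nonneg _ h2
  exact_mod_cast (h.wpos x).le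

end WC

/-- The coordinate in which the flow is the scaling. -/
noncomputable def kap (x : ℝ) : ℝ := if x < 1 then x else Real.sqrt x

/-- Its inverse. -/
noncomputable def kinv (z : ℝ) : ℝ := if z < 1 then z else z ^ 2

/-- The weight of `kap`. -/
noncomputable def wk (x : ℝ) : ℝ := if x < 1 then 1 else 1 / (2 * x)

/-- The weight of `kinv`. -/
noncomputable def wi (z : ℝ) : ℝ := if z < 1 then 1 else 2 * z ^ 2

theorem image_sq : (fun z : ℝ => z ^ 2) '' (Ici 1) = Ici 1 := by
  ext x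
  simp only [mem_image, mem_Ici]
  constructor
  · rintro ⟨z, hz, rfl⟩
    nlinarith
  · intro hx
    exact ⟨Real.sqrt x, Real.one_le_sqrt.2 hx, Real.sq_sqrt (by linarith)⟩

theorem injOn_sq : InjOn (fun z : ℝ => z ^ 2) (Ici 1) := by
  intro x hx y hy hxy
  have hx1 : (1 : ℝ) ≤ x := hx
  have hy1 : (1 : ℝ) ≤ y := hy
  simp only at hxy
  nlinarith

theorem deriv_sq (z : ℝ) (s : Set ℝ) : HasDerivWithinAt (fun z : ℝ => z ^ 2) (2 * z) s z := by
  have := (hasDerivAt_pow 2 z).hasDerivWithinAt (s := s)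
  simpa using this

theorem lint_sq (g : ℝ → ENNReal) :
    ∫⁻ x in Ici (1 : ℝ), g x = ∫⁻ z in Ici (1 : ℝ), ENNReal.ofReal |2 * z| * g (z ^ 2) := by
  have := lintegral_image_eq_lintegral_abs_deriv_mul measurableSet_Ici
    (fun z _ => deriv_sq z (Ici 1)) injOn_sq g
  rwa [image_sq] at this

theorem lint_split {g : ℝ → ENNReal} (hg : Measurable g) :
    ∫⁻ x, g x ∂mu = (∫⁻ x in Ioo (0 : ℝ) 1, ENNReal.ofReal x * g x) +
      ∫⁻ x in Ici (1 : ℝ), ENNReal.ofReal x * g x := by
  rw [lintegral_mu hg, lintegral_indicator measurableSet_Ioi]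
  have : Ioi (0 : ℝ) = Ioo 0 1 ∪ Ici 1 := by
    ext x; simp only [mem_Ioi, mem_union, mem_Ioo, mem_Ici]
    constructor
    · intro h
      rcases lt_or_ge x 1 with h1 | h1
      · exact Or.inl ⟨h, h1⟩
      · exact Or.inr h1
    · rintro (h | h)
      · exact h.1
      · linarith
  rw [this, lintegral_union measurableSet_Ici]
  rw [Set.disjoint_left]
  rintro x hx hx2
  exact absurd hx.2 (not_lt.2 hx2)

theorem kap_meas : Measurable kap :=
  Measurable.ite measurableSet_Iio measurable_id Real.continuous_sqrt.measurable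

theorem kinv_meas : Measurable kinv :=
  Measurable.ite measurableSet_Iio measurable_id (measurable_id.pow_const 2)

theorem wk_meas : Measurable wk :=
  Measurable.ite measurableSet_Iio measurable_const
    (measurable_const.div (measurable_id.const_mul 2))

theorem wi_meas : Measurable wi :=
  Measurable.ite measurableSet_Iio measurable_const ((measurable_id.pow_const 2).const_mul 2)

theorem wk_pos (x : ℝ) : 0 < wk x := by
  unfold wk
  split_ifs with h
  · exact one_pos
  · push Not at h; positivity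

theorem wi_pos (x : ℝ) : 0 < wi x := by
  unfold wi
  split_ifs with h
  · exact one_pos
  · push Not at h; positivity

theorem wc_kap : WC kap wk := by
  refine ⟨kap_meas, wk_meas, wk_pos, fun g hg => ?_⟩
  have hm : Measurable fun x => ENNReal.ofReal (wk x) * g (kap x) :=
    (ENNReal.measurable_ofReal.comp wk_meas).mul (hg.comp kap_meas)
  rw [lint_split hm, lint_split hg]
  congr 1
  · apply setLIntegral_congr_fun measurableSet_Ioo
    intro x hx
    simp only [wk, kap, if_pos hx.2, ENNReal.ofReal_one, one_mul]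
  · rw [lint_sq]
    apply setLIntegral_congr_fun measurableSet_Ici
    intro z hz
    have hz1 : (1 : ℝ) ≤ z := hz
    have hz2 : ¬ z ^ 2 < 1 := by nlinarith
    simp only [wk, kap, if_neg hz2]
    rw [Real.sqrt_sq (by linarith), ← mul_assoc, ← mul_assoc,
      ← ENNReal.ofReal_mul (abs_nonneg _), ← ENNReal.ofReal_mul (by positivity)]
    congr 2
    rw [abs_of_pos (by linarith)]
    field_simp

theorem wc_kinv : WC kinv wi := by
  refine ⟨kinv_meas, wi_meas, wi_pos, fun g hg => ?_⟩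
  have hm : Measurable fun x => ENNReal.ofReal (wi x) * g (kinv x) :=
    (ENNReal.measurable_ofReal.comp wi_meas).mul (hg.comp kinv_meas)
  rw [lint_split hm, lint_split hg]
  congr 1
  · apply setLIntegral_congr_fun measurableSet_Ioo
    intro x hx
    simp only [wi, kinv, if_pos hx.2, ENNReal.ofReal_one, one_mul]
  · rw [lint_sq (fun x => ENNReal.ofReal x * g x)]
    apply setLIntegral_congr_fun measurableSet_Ici
    intro z hz
    have hz1 : (1 : ℝ) ≤ z := hz
    have hz2 : ¬ z < 1 := not_lt.2 hz1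
    simp only [wi, kinv, if_neg hz2]
    rw [← mul_assoc, ← mul_assoc, ← ENNReal.ofReal_mul (by linarith),
      ← ENNReal.ofReal_mul (abs_nonneg _)]
    congr 2
    rw [abs_of_pos (by linarith)]
    ring

theorem kap_kinv (z : ℝ) : kap (kinv z) = z := by
  unfold kap kinv
  by_cases h : z < 1
  · rw [if_pos h, if_pos h]
  · rw [if_neg h]
    push Not at h
    have : ¬ z ^ 2 < 1 := by nlinarith
    rw [if_neg this, Real.sqrt_sq (by linarith)]

theorem kinv_kap (x : ℝ) : kinv (kap x) = x := by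
  unfold kap kinv
  by_cases h : x < 1
  · rw [if_pos h, if_pos h]
  · rw [if_neg h]
    push Not at h
    have : ¬ Real.sqrt x < 1 := not_lt.2 (Real.one_le_sqrt.2 h)
    rw [if_neg this, Real.sq_sqrt (by linarith)]

theorem wi_wk (z : ℝ) : wi z * wk (kinv z) = 1 := by
  unfold wi wk kinv
  by_cases h : z < 1
  · rw [if_pos h, if_pos h, if_pos h, one_mul]
  · rw [if_neg h, if_neg h]
    push Not at h
    have : ¬ z ^ 2 < 1 := by nlinarith
    rw [if_neg this]
    field_simp

theorem wk_wi (x : ℝ) : wk x * wi (kap x) = 1 := by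
  unfold wi wk kap
  by_cases h : x < 1
  · rw [if_pos h, if_pos h, if_pos h, one_mul]
  · rw [if_neg h, if_neg h]
    push Not at h
    have : ¬ Real.sqrt x < 1 := not_lt.2 (Real.one_le_sqrt.2 h)
    rw [if_neg this, Real.sq_sqrt (by linarith)]
    field_simp

/-- The change of coordinates. -/
noncomputable def J : X1 →L[ℂ] X1 := wc_kinv.op

/-- Its inverse. -/
noncomputable def Ji : X1 →L[ℂ] X1 := wc_kap.op

theorem J_Ji (f : X1) : J (Ji f) = f := by
  apply Lp.ext
  filter_upwards [wc_kinv.op_coe (Ji f), wc_kinv.qmp.ae (wc_kap.op_coe f)] with x h1 h2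
  show (wc_kinv.op (Ji f) : ℝ → ℂ) x = f x
  rw [h1]
  simp only [WC.fn]
  have h3 : (Ji f : ℝ → ℂ) (kinv x) = (wk (kinv x) : ℂ) * f (kap (kinv x)) := h2
  rw [h3, kap_kinv, ← mul_assoc, ← Complex.ofReal_mul, wi_wk]
  simp

theorem Ji_J (f : X1) : Ji (J f) = f := by
  apply Lp.ext
  filter_upwards [wc_kap.op_coe (J f), wc_kap.qmp.ae (wc_kinv.op_coe f)] with x h1 h2
  show (wc_kap.op (J f) : ℝ → ℂ) x = f x
  rw [h1]
  simp only [WC.fn]
  have h3 : (J f : ℝ → ℂ) (kap x) = (wi (kap x) : ℂ) * f (kinv (kap x)) := h2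
  rw [h3, kinv_kap, ← mul_assoc, ← Complex.ofReal_mul, wk_wi]
  simp

/-- The mass preserving transport group of the flow. -/
noncomputable def T (t : ℝ) : X1 →L[ℂ] X1 := Ji.comp ((U t).comp J)

theorem isoGroup_T : IsoGroup (T : ℝ → X1 →L[ℂ] X1) := by
  refine ⟨?_, fun s t f => ?_, fun t f => ?_, fun f => ?_⟩
  · ext1 f
    show Ji (U 0 (J f)) = f
    rw [U_zero]
    exact Ji_J f
  · show Ji (U (s + t) (J f)) = Ji (U s (J (Ji (U t (J f)))))
    rw [J_Ji, U_add]
  · show ‖Ji (U t (J f))‖ = ‖f‖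
    rw [show ‖Ji (U t (J f))‖ = ‖U t (J f)‖ from wc_kap.op_norm _, U_norm]
    exact wc_kinv.op_norm f
  · exact Ji.continuous.comp (U_continuous (J f))

theorem T_pos (t : ℝ) (f : X1) (h : ∀ φ ∈ Phi, 0 ≤ φ f) : ∀ φ ∈ Phi, 0 ≤ φ (T t f) :=
  wc_kap.op_pos _ (U_pos t _ (wc_kinv.op_pos f h))

theorem T_coe (t : ℝ) (f : X1) : ∀ᵐ y ∂mu, T t f y =
    ((wk y * (Real.exp (-(2 * t)) * wi (Real.exp (-t) * kap y)) : ℝ) : ℂ) *
      f (kinv (Real.exp (-t) * kap y)) := by
  filter_upwards [wc_kap.op_coe (U t (J f)), wc_kap.qmp.ae (U_coe t (J f)),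
    wc_kap.qmp.ae ((qmp t).ae (wc_kinv.op_coe f))] with y h1 h2 h3
  show (wc_kap.op (U t (J f)) : ℝ → ℂ) y = _
  rw [h1]
  simp only [WC.fn]
  rw [h2]
  simp only [sc]
  have h4 : (J f : ℝ → ℂ) (Real.exp (-t) * kap y) =
      (wi (Real.exp (-t) * kap y) : ℂ) * f (kinv (Real.exp (-t) * kap y)) := h3
  rw [h4]
  push_cast
  ring

theorem J_beta : J beta = beta := by
  apply Lp.ext
  have hpos : ∀ᵐ y ∂mu, 0 < y := by
    unfold mu
    apply withDensity_absolutelyContinuous
    exact ae_restrict_mem measurableSet_Ioi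
  filter_upwards [wc_kinv.op_coe beta, wc_kinv.qmp.ae beta_coe, beta_coe, hpos] with x h1 h2 h3 hx
  show (wc_kinv.op beta : ℝ → ℂ) x = beta x
  rw [h1]
  simp only [WC.fn]
  rw [h2, h3]
  unfold wi kinv
  by_cases h : x < 1
  · rw [if_pos h, if_pos h]; simp
  · rw [if_neg h, if_neg h]
    push Not at h
    have h5 : x ^ 2 ∉ Ioo (0 : ℝ) 1 := fun hm => by have := hm.2; nlinarith
    have h6 : x ∉ Ioo (0 : ℝ) 1 := fun hm => by have := hm.2; linarith
    rw [indicator_of_notMem h5, indicator_of_notMem h6, mul_zero]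

theorem ell_Ji (g : X1) : ell (Ji g) = ell g := by
  rw [ell_apply, ell_apply]
  have hvol : ∀ {p : ℝ → Prop}, (∀ᵐ x ∂mu, p x) → ∀ᵐ x ∂(volume.restrict (Ici (1 : ℝ))), p x := by
    intro p hp
    unfold mu at hp
    rw [ae_withDensity_iff ENNReal.measurable_ofReal] at hp
    have h1 : ∀ᵐ x ∂(volume.restrict (Ici (1 : ℝ))), ENNReal.ofReal x ≠ 0 → p x :=
      ae_restrict_of_ae_restrict_of_subset
        (show Ici (1 : ℝ) ⊆ Ioi 0 from fun x hx =>
          show (0 : ℝ) < x from lt_of_lt_of_le one_pos (show (1 : ℝ) ≤ x from hx)) hp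
    filter_upwards [h1, ae_restrict_mem measurableSet_Ici] with x hx hx1
    apply hx
    rw [Ne, ENNReal.ofReal_eq_zero, not_le]
    exact lt_of_lt_of_le one_pos hx1
  have h1 : ∫ x in Ici (1 : ℝ), (x : ℂ) * (Ji g : ℝ → ℂ) x =
      ∫ x in Ici (1 : ℝ), (1 / 2 : ℂ) * g (Real.sqrt x) := by
    apply integral_congr_ae
    filter_upwards [hvol (wc_kap.op_coe g), ae_restrict_mem measurableSet_Ici] with x hx hx1
    have hx1' : (1 : ℝ) ≤ x := hx1
    have hx2 : ¬ x < 1 := not_lt.2 hx1'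
    show (x : ℂ) * (wc_kap.op g : ℝ → ℂ) x = _
    rw [hx]
    simp only [WC.fn, wk, kap, if_neg hx2]
    rw [← mul_assoc, ← Complex.ofReal_mul]
    have : x * (1 / (2 * x)) = 1 / 2 := by field_simp
    rw [this]
    push_cast
    rfl
  have h2 := integral_image_eq_integral_abs_deriv_smul measurableSet_Ici
    (fun z _ => deriv_sq z (Ici 1)) injOn_sq (fun x => (1 / 2 : ℂ) * g (Real.sqrt x))
  rw [image_sq] at h2
  rw [h1, h2]
  apply setIntegral_congr_fun measurableSet_Ici
  intro z hz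
  have hz1 : (1 : ℝ) ≤ z := hz
  simp only
  rw [Real.sqrt_sq (by linarith), abs_of_pos (by linarith), Complex.real_smul]
  push_cast
  ring

theorem ell_T_beta {t : ℝ} (ht : 0 ≤ t) :
    ell (T t beta) = ((1 - Real.exp (-(2 * t)) : ℝ) : ℂ) := by
  show ell (Ji (U t (J beta))) = _
  rw [ell_Ji, J_beta, ell_U_beta ht]

theorem char_T : ∫ σ in Ioi (0 : ℝ), (Real.exp (-(ev * σ)) : ℂ) * ell (T σ beta) = 1 := by
  rw [← char_eq]
  apply setIntegral_congr_fun measurableSet_Ioi
  intro σ hσ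
  simp only
  rw [ell_T_beta (le_of_lt hσ), ell_U_beta (le_of_lt hσ)]

end Pool.Agent.X114.GF
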