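import Pool.Agent.X114.GF.GF6

/-! The growth-fragmentation semigroup: verification of the data. -/

namespace Pool.Agent.X114.GF

open MeasureTheory Filter Topology Set
open scoped ComplexOrder

theorem ess_le {X : Type} [NormedAddCommGroup X] [NormedSpace ℂ X] [CompleteSpace X]
    {T S : X →L[ℂ] X} {ρ : ℝ} (hρ : 0 ≤ ρ) (hS : ‖S‖ ≤ ρ) (hc : IsCompactOperator (T - S)) :
    essSpectralRadius T ≤ ENNReal.ofReal ρ := by
  refine iSup₂_le fun z hz => ?_
  by_contra hlt
  push Not at hlt
  apply hz
  have hz1 : ρ < ‖z‖ := by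
    rw [ENNReal.ofReal_eq_coe_nnreal hρ] at hlt
    exact_mod_cast hlt
  have hres : z ∈ resolventSet ℂ S := by
    apply spectrum.mem_resolventSet_of_norm_lt_mul
    refine lt_of_le_of_lt ?_ hz1
    calc ‖S‖ * ‖(1 : X →L[ℂ] X)‖ ≤ ρ * 1 :=
          mul_le_mul hS ContinuousLinearMap.norm_id_le (norm_nonneg _) hρ
      _ = ρ := mul_one _
  rw [spectrum.mem_resolventSet_iff] at hres
  obtain ⟨R, hR1, hR2⟩ := isUnit_iff_exists.1 hres
  have e : algebraMap ℂ (X →L[ℂ] X) z - T = (algebraMap ℂ (X →L[ℂ] X) z - S) + -(T - S) := by abel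
  refine ⟨R, R * -(T - S), -(T - S) * R, ?_, ?_, ?_, ?_⟩
  · exact (hc.neg).clm_comp R
  · exact (hc.neg).comp_clm R
  · rw [e, mul_add, hR2]
  · rw [e, add_mul, hR1]

/-! ### integrals of `1/r` and `a/r` -/

theorem rate_pos (x : ℝ) (hx : 0 < x) : 0 < rate x := by
  unfold rate; split_ifs <;> linarith

theorem rate_meas : Measurable rate :=
  Measurable.ite measurableSet_Iio measurable_id (measurable_id.const_mul 2)

theorem frag_meas : Measurable frag :=
  Measurable.ite measurableSet_Iio measurable_const measurable_const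

theorem inv_le (p : ℝ) (hp : 0 < p) : 1 / rate p ≤ 1 / p := by
  apply one_div_le_one_div_of_le hp
  unfold rate; split_ifs <;> linarith

theorem le_inv (p : ℝ) (hp : 0 < p) : 1 / 2 * (1 / p) ≤ 1 / rate p := by
  have : 1 / 2 * (1 / p) = 1 / (2 * p) := by field_simp
  rw [this]
  apply one_div_le_one_div_of_le (rate_pos p hp)
  unfold rate; split_ifs <;> linarith

theorem int_one_div {x y : ℝ} (hx : 0 < x) :
    IntegrableOn (fun p : ℝ => 1 / p) (Icc x y) := by
  apply ContinuousOn.integrableOn_Icc
  intro p hp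
  have : p ≠ 0 := by have := hp.1; linarith
  exact ContinuousAt.continuousWithinAt (by fun_prop (disch := assumption))

theorem int_rate {x y : ℝ} (hx : 0 < x) :
    IntegrableOn (fun p : ℝ => 1 / rate p) (Icc x y) := by
  refine Integrable.mono' (int_one_div hx)
    ((measurable_const.div rate_meas).aestronglyMeasurable) ?_
  filter_upwards [ae_restrict_mem measurableSet_Icc] with p hp
  have hp0 : 0 < p := lt_of_lt_of_le hx hp.1
  rw [Real.norm_eq_abs, abs_of_pos (one_div_pos.2 (rate_pos p hp0))]
  exact inv_le p hp0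

theorem int_frag {x y : ℝ} (hx : 0 < x) :
    IntegrableOn (fun p : ℝ => frag p / rate p) (Icc x y) := by
  refine Integrable.mono' (int_one_div hx)
    ((frag_meas.div rate_meas).aestronglyMeasurable) ?_
  filter_upwards [ae_restrict_mem measurableSet_Icc] with p hp
  have hp0 : 0 < p := lt_of_lt_of_le hx hp.1
  have h1 := rate_pos p hp0
  have h2 : 0 ≤ frag p ∧ frag p ≤ 1 := by unfold frag; split_ifs <;> norm_num
  rw [Real.norm_eq_abs, abs_of_nonneg (div_nonneg h2.1 h1.le)]
  exact (div_le_div_of_nonneg_right h2.2 h1.le).trans (inv_le p hp0)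

theorem ii_rate {x y : ℝ} (hx : 0 < x) (hxy : x ≤ y) :
    IntervalIntegrable (fun p : ℝ => 1 / rate p) volume x y := by
  rw [intervalIntegrable_iff_integrableOn_Icc_of_le hxy]; exact int_rate hx

theorem ii_frag {x y : ℝ} (hx : 0 < x) (hxy : x ≤ y) :
    IntervalIntegrable (fun p : ℝ => frag p / rate p) volume x y := by
  rw [intervalIntegrable_iff_integrableOn_Icc_of_le hxy]; exact int_frag hx

theorem rate_low {x y : ℝ} (hx : 0 < x) (hxy : x ≤ y) (hy : y ≤ 1) :
    ∫ p in x..y, 1 / rate p = Real.log y - Real.log x := by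
  have hy0 : 0 < y := lt_of_lt_of_le hx hxy
  have e : ∫ p in x..y, 1 / rate p = ∫ p in x..y, 1 / p := by
    apply intervalIntegral.integral_congr_ae
    have h1 : ∀ᵐ p : ℝ, p ≠ 1 := by
      rw [ae_iff]; simp
    filter_upwards [h1] with p hp1 hp
    rw [uIoc_of_le hxy] at hp
    have : p < 1 := lt_of_le_of_ne (hp.2.trans hy) hp1
    simp only [rate, if_pos this]
  rw [e, integral_one_div_of_pos hx hy0, Real.log_div hy0.ne' hx.ne']

theorem rate_high {x y : ℝ} (hx : 1 ≤ x) (hxy : x ≤ y) :
    ∫ p in x..y, 1 / rate p = 1 / 2 * (Real.log y - Real.log x) := by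
  have hx0 : 0 < x := by linarith
  have hy0 : 0 < y := by linarith
  have e : ∫ p in x..y, 1 / rate p = ∫ p in x..y, 1 / 2 * (1 / p) := by
    apply intervalIntegral.integral_congr
    intro p hp
    rw [uIcc_of_le hxy] at hp
    have h1 : ¬ p < 1 := not_lt.2 (hx.trans hp.1)
    have h2 : p ≠ 0 := by have := hp.1; linarith
    simp only [rate, if_neg h1]
    field_simp
  rw [e, intervalIntegral.integral_const_mul, integral_one_div_of_pos hx0 hy0,
    Real.log_div hy0.ne' hx0.ne']

theorem frag_low {x y : ℝ} (hxy : x ≤ y) (hy : y ≤ 1) :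
    ∫ p in x..y, frag p / rate p = 0 := by
  have e : ∫ p in x..y, frag p / rate p = ∫ p in x..y, (0 : ℝ) := by
    apply intervalIntegral.integral_congr_ae
    have h1 : ∀ᵐ p : ℝ, p ≠ 1 := by
      rw [ae_iff]; simp
    filter_upwards [h1] with p hp1 hp
    rw [uIoc_of_le hxy] at hp
    have : p < 1 := lt_of_le_of_ne (hp.2.trans hy) hp1
    simp only [frag, if_pos this, zero_div]
  rw [e]; simp

theorem frag_high {x y : ℝ} (hx : 1 ≤ x) (hxy : x ≤ y) :
    ∫ p in x..y, frag p / rate p = 1 / 2 * (Real.log y - Real.log x) := by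
  rw [← rate_high hx hxy]
  apply intervalIntegral.integral_congr
  intro p hp
  rw [uIcc_of_le hxy] at hp
  have h1 : ¬ p < 1 := not_lt.2 (hx.trans hp.1)
  simp only [frag, if_neg h1]

/-- The flow. -/
noncomputable def flow (y t : ℝ) : ℝ := kinv (Real.exp (-t) * kap y)

theorem kap_pos {y : ℝ} (hy : 0 < y) : 0 < kap y := by
  unfold kap; split_ifs
  · exact hy
  · exact Real.sqrt_pos.2 hy

/-- The three positions of `y` and `X(y,t)` relative to `1`. -/
theorem flow_cases {y t : ℝ} (hy : 0 < y) (ht : 0 ≤ t) :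
    (y < 1 ∧ flow y t = Real.exp (-t) * y ∧ flow y t ≤ y ∧ 0 < flow y t ∧ flow y t < 1) ∨
    (1 ≤ y ∧ 1 ≤ Real.exp (-t) * Real.sqrt y ∧ flow y t = Real.exp (-(2 * t)) * y ∧
      flow y t ≤ y ∧ 1 ≤ flow y t) ∨
    (1 ≤ y ∧ Real.exp (-t) * Real.sqrt y < 1 ∧ flow y t = Real.exp (-t) * Real.sqrt y ∧
      flow y t < 1 ∧ 0 < flow y t) := by
  have he : Real.exp (-t) ≤ 1 := Real.exp_le_one_iff.2 (by linarith)
  have he0 := Real.exp_pos (-t)
  have he2 : Real.exp (-(2 * t)) = Real.exp (-t) ^ 2 := by
    rw [← Real.exp_nat_mul]; congr 1; push_cast; ring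
  rcases lt_or_ge y 1 with h | h
  · left
    have h1 : Real.exp (-t) * y < 1 := by nlinarith
    have e : flow y t = Real.exp (-t) * y := by
      unfold flow kap kinv
      rw [if_pos h, if_pos h1]
    refine ⟨h, e, ?_, ?_, ?_⟩
    · rw [e]; nlinarith
    · rw [e]; positivity
    · rw [e]; exact h1
  · right
    have hs : kap y = Real.sqrt y := by unfold kap; rw [if_neg (not_lt.2 h)]
    have hsq : Real.sqrt y ^ 2 = y := Real.sq_sqrt hy.le
    rcases lt_or_ge (Real.exp (-t) * Real.sqrt y) 1 with h1 | h1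
    · right
      have e : flow y t = Real.exp (-t) * Real.sqrt y := by
        unfold flow kinv
        rw [hs, if_pos h1]
      refine ⟨h, h1, e, ?_, ?_⟩
      · rw [e]; exact h1
      · rw [e]; have := Real.sqrt_pos.2 hy; positivity
    · left
      have e : flow y t = Real.exp (-(2 * t)) * y := by
        unfold flow kinv
        rw [hs, if_neg (not_lt.2 h1), mul_pow, hsq, he2]
      refine ⟨h, h1, e, ?_, ?_⟩
      · rw [e, he2]
        have : Real.exp (-t) ^ 2 ≤ 1 := pow_le_one₀ he0.le he
        nlinarith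
      · rw [e, he2, ← hsq, ← mul_pow]
        exact one_le_pow₀ h1

theorem flow_ok : IsFlow rate flow := by
  intro y t hy ht
  rcases flow_cases hy ht with ⟨h1, h2, h3, h4, h5⟩ | ⟨h1, h2, h3, h4, h5⟩ | ⟨h1, h2, h3, h4, h5⟩
  · refine ⟨h4, h3, ?_⟩
    rw [rate_low h4 h3 h1.le, h2, Real.log_mul (Real.exp_pos _).ne' hy.ne', Real.log_exp]
    ring
  · refine ⟨by linarith, h4, ?_⟩
    rw [rate_high h5 h4, h3, Real.log_mul (Real.exp_pos _).ne' hy.ne', Real.log_exp]
    ring
  · refine ⟨h5, by linarith, ?_⟩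
    rw [← intervalIntegral.integral_add_adjacent_intervals (b := 1)
      (ii_rate h5 h4.le) (ii_rate one_pos h1), rate_low h5 h4.le le_rfl, rate_high le_rfl h1, h3,
      Real.log_mul (Real.exp_pos _).ne' (Real.sqrt_pos.2 hy).ne', Real.log_exp, Real.log_sqrt hy.le,
      Real.log_one]
    ring

/-- The weight of the transport semigroup. -/
theorem weight_ok {y t : ℝ} (hy : 0 < y) (ht : 0 ≤ t) (hy1 : y ≠ 1)
    (hy2 : Real.exp (-t) * Real.sqrt y ≠ 1) :
    Real.exp (-∫ p in (flow y t)..y, frag p / rate p) * deriv (fun z => flow z t) y =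
      Real.exp (-t) * wk y * wi (Real.exp (-t) * kap y) := by
  have he0 := Real.exp_pos (-t)
  have he2 : Real.exp (-(2 * t)) = Real.exp (-t) ^ 2 := by
    rw [← Real.exp_nat_mul]; congr 1; push_cast; ring
  rcases flow_cases hy ht with ⟨h1, h2, h3, h4, h5⟩ | ⟨h1, h2, h3, h4, h5⟩ | ⟨h1, h2, h3, h4, h5⟩
  · have hd : deriv (fun z => flow z t) y = Real.exp (-t) := by
      have : (fun z => flow z t) =ᶠ[𝓝 y] fun z => Real.exp (-t) * z := by
        filter_upwards [Ioo_mem_nhds hy h1] with z hz
        rcases flow_cases hz.1 ht with h | h | h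
        · exact h.2.1
        · linarith [h.1, hz.2]
        · linarith [h.1, hz.2]
      rw [this.deriv_eq]
      simp
    rw [frag_low h3 h1.le, hd]
    have hk : kap y = y := by unfold kap; rw [if_pos h1]
    have hwk : wk y = 1 := by unfold wk; rw [if_pos h1]
    have hwi : wi (Real.exp (-t) * kap y) = 1 := by
      unfold wi; rw [hk, if_pos (by rw [← h2]; exact h5)]
    rw [hwk, hwi]; simp
  · have h1' : 1 < y := lt_of_le_of_ne h1 (Ne.symm hy1)
    have h2' : 1 < Real.exp (-t) * Real.sqrt y := lt_of_le_of_ne h2 (Ne.symm hy2)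
    have hd : deriv (fun z => flow z t) y = Real.exp (-(2 * t)) := by
      have : (fun z => flow z t) =ᶠ[𝓝 y] fun z => Real.exp (-(2 * t)) * z := by
        have hc : ContinuousAt (fun z => Real.exp (-t) * Real.sqrt z) y :=
          (continuous_const.mul Real.continuous_sqrt).continuousAt
        filter_upwards [hc.eventually (lt_mem_nhds h2'), lt_mem_nhds h1'] with z hz1 hz2
        rcases flow_cases (show 0 < z by linarith) ht with h | h | h
        · linarith [h.1]
        · exact h.2.2.1
        · linarith [h.2.1]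
      rw [this.deriv_eq]
      simp
    rw [frag_high h5 h4, hd]
    have hsq : Real.sqrt y ^ 2 = y := Real.sq_sqrt hy.le
    have hk : kap y = Real.sqrt y := by unfold kap; rw [if_neg (not_lt.2 h1)]
    have hwk : wk y = 1 / (2 * y) := by unfold wk; rw [if_neg (not_lt.2 h1)]
    have hwi : wi (Real.exp (-t) * kap y) = 2 * (Real.exp (-(2 * t)) * y) := by
      unfold wi; rw [hk, if_neg (not_lt.2 h2), mul_pow, hsq, he2]
    rw [hwk, hwi, h3, Real.log_mul (Real.exp_pos _).ne' hy.ne', Real.log_exp]
    have e : -(1 / 2 * (Real.log y - (-(2 * t) + Real.log y))) = -t := by ring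
    rw [e]
    field_simp
  · have h1' : 1 < y := lt_of_le_of_ne h1 (Ne.symm hy1)
    have hs0 : 0 < Real.sqrt y := Real.sqrt_pos.2 hy
    have hd : deriv (fun z => flow z t) y = Real.exp (-t) * (1 / (2 * Real.sqrt y)) := by
      have : (fun z => flow z t) =ᶠ[𝓝 y] fun z => Real.exp (-t) * Real.sqrt z := by
        have hc : ContinuousAt (fun z => Real.exp (-t) * Real.sqrt z) y :=
          (continuous_const.mul Real.continuous_sqrt).continuousAt
        filter_upwards [hc.eventually (gt_mem_nhds h2), lt_mem_nhds h1'] with z hz1 hz2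
        rcases flow_cases (show 0 < z by linarith) ht with h | h | h
        · linarith [h.1]
        · linarith [h.2.1]
        · exact h.2.2.1
      rw [this.deriv_eq, deriv_const_mul _ (Real.hasDerivAt_sqrt hy.ne').differentiableAt,
        (Real.hasDerivAt_sqrt hy.ne').deriv]
    have hint : ∫ p in (flow y t)..y, frag p / rate p = 1 / 2 * Real.log y := by
      rw [← intervalIntegral.integral_add_adjacent_intervals (b := 1)
        (ii_frag h5 h4.le) (ii_frag one_pos h1), frag_low h4.le le_rfl, frag_high le_rfl h1,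
        Real.log_one]
      ring
    have hexp : Real.exp (-(1 / 2 * Real.log y)) = 1 / Real.sqrt y := by
      have : 1 / 2 * Real.log y = Real.log (Real.sqrt y) := by
        rw [Real.log_sqrt hy.le]; ring
      rw [this, Real.exp_neg, Real.exp_log hs0, one_div]
    have hsq : Real.sqrt y * Real.sqrt y = y := Real.mul_self_sqrt hy.le
    have hk : kap y = Real.sqrt y := by unfold kap; rw [if_neg (not_lt.2 h1)]
    have hwk : wk y = 1 / (2 * y) := by unfold wk; rw [if_neg (not_lt.2 h1)]
    have hwi : wi (Real.exp (-t) * kap y) = 1 := by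
      unfold wi; rw [hk, if_pos h2]
    rw [hint, hexp, hd, hwk, hwi]
    have e : 1 / Real.sqrt y * (Real.exp (-t) * (1 / (2 * Real.sqrt y))) =
        Real.exp (-t) * (1 / (2 * (Real.sqrt y * Real.sqrt y))) := by
      field_simp
    rw [e, hsq, mul_one]

/-! ### the data -/

theorem rate_ok : IsGrowthRate rate := by
  have hm : Measurable fun p : ℝ => 1 / rate p := measurable_const.div rate_meas
  have key : ∀ s : Set ℝ, MeasurableSet s → (∀ p ∈ s, 0 < p) →
      ¬ IntegrableOn (fun x : ℝ => x⁻¹) s → ∫⁻ p in s, ENNReal.ofReal (1 / rate p) = ⊤ := by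
    intro s hs hpos hni
    by_contra h
    have h2 : 0 ≤ᵐ[volume.restrict s] fun p : ℝ => 1 / rate p := by
      filter_upwards [ae_restrict_mem hs] with p hp
      exact (one_div_pos.2 (rate_pos p (hpos p hp))).le
    have h3 := (lintegral_ofReal_ne_top_iff_integrable hm.aestronglyMeasurable h2).1 h
    apply hni
    refine Integrable.mono' (h3.const_mul 2) measurable_inv.aestronglyMeasurable ?_
    filter_upwards [ae_restrict_mem hs] with p hp
    have h4 := le_inv p (hpos p hp)
    rw [Real.norm_eq_abs, abs_of_pos (inv_pos.2 (hpos p hp)), ← one_div]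
    linarith
  refine ⟨rate_meas, rate_pos, fun x y hx _ => int_rate hx, ?_, ?_⟩
  · refine key _ measurableSet_Ioc (fun p hp => hp.1) fun h => ?_
    have h4 : IntervalIntegrable (fun x : ℝ => x⁻¹) volume 0 1 := by
      rw [intervalIntegrable_iff_integrableOn_Ioc_of_le zero_le_one]
      exact h
    rw [intervalIntegrable_inv_iff] at h4
    rcases h4 with h4 | h4
    · norm_num at h4
    · exact h4 (by simp)
  · exact key _ measurableSet_Ioi (fun p hp => lt_trans one_pos hp) not_integrableOn_Ioi_inv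

theorem kernel_meas : Measurable (Function.uncurry kernel) := by
  have h1 : MeasurableSet {p : ℝ × ℝ | 1 ≤ p.2} := measurableSet_le measurable_const measurable_snd
  have h2 : MeasurableSet {p : ℝ × ℝ | p.1 < 1} := measurableSet_lt measurable_fst measurable_const
  have h3 : MeasurableSet {p : ℝ × ℝ | 0 < p.2 ∧ p.1 < p.2} :=
    (measurableSet_lt measurable_const measurable_snd).inter
      (measurableSet_lt measurable_fst measurable_snd)
  have h : Measurable fun p : ℝ × ℝ => if 1 ≤ p.2 then (if p.1 < 1 then 2 * p.2 else 0) else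
      (if 0 < p.2 ∧ p.1 < p.2 then 2 / p.2 else 0) :=
    Measurable.ite h1 (Measurable.ite h2 (measurable_snd.const_mul 2) measurable_const)
      (Measurable.ite h3 (measurable_const.div measurable_snd) measurable_const)
  exact h

theorem lint_lin {c z : ℝ} (hc : 0 ≤ c) (hz : 0 ≤ z) :
    ∫⁻ x in Ioo 0 z, ENNReal.ofReal (c * x) = ENNReal.ofReal (c * (z ^ 2 / 2)) := by
  rw [← ofReal_integral_eq_lintegral_ofReal]
  · congr 1
    rw [← integral_Ioc_eq_integral_Ioo, ← intervalIntegral.integral_of_le hz,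
      intervalIntegral.integral_const_mul, integral_id]
    ring
  · exact (Continuous.integrableOn_Icc (by fun_prop)).mono_set Ioo_subset_Icc_self
  · filter_upwards [ae_restrict_mem measurableSet_Ioo] with x hx
    exact mul_nonneg hc hx.1.le

theorem kernel_ok : IsConservativeKernel kernel := by
  refine ⟨kernel_meas, fun x y => ?_, fun y hy => ?_⟩
  · unfold kernel
    split_ifs with h1 h2 h3
    · linarith
    · exact le_rfl
    · have := h3.1; positivity
    · exact le_rfl
  · rcases lt_or_ge y 1 with h | h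
    · have e : ∀ x ∈ Ioo 0 y, ENNReal.ofReal (x * kernel x y) =
          ENNReal.ofReal (2 / y * x) := by
        intro x hx
        unfold kernel
        rw [if_neg (not_le.2 h), if_pos ⟨hy, hx.2⟩, mul_comm]
      rw [setLIntegral_congr_fun measurableSet_Ioo e, lint_lin (by positivity) hy.le]
      congr 1
      field_simp
    · have e : ∀ x ∈ Ioo 0 y, ENNReal.ofReal (x * kernel x y) =
          (Ioo (0 : ℝ) 1).indicator (fun x => ENNReal.ofReal (2 * y * x)) x := by
        intro x hx
        unfold kernel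
        rw [if_pos h]
        by_cases h1 : x < 1
        · rw [if_pos h1, indicator_of_mem (show x ∈ Ioo (0 : ℝ) 1 from ⟨hx.1, h1⟩)]
          congr 1; ring
        · rw [if_neg h1, indicator_of_notMem (fun hm => h1 hm.2)]
          simp
      rw [setLIntegral_congr_fun measurableSet_Ioo e, setLIntegral_indicator measurableSet_Ioo]
      have hset : Ioo (0 : ℝ) 1 ∩ Ioo 0 y = Ioo 0 1 := by
        ext x; simp only [mem_inter_iff, mem_Ioo]
        constructor
        · exact fun h => h.1
        · exact fun hx => ⟨hx, hx.1, by linarith [hx.2]⟩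
      rw [hset, lint_lin (by positivity) zero_le_one]
      congr 1
      ring

theorem ae_pos : ∀ᵐ y ∂mu, 0 < y := by
  unfold mu
  apply withDensity_absolutelyContinuous
  exact ae_restrict_mem measurableSet_Ioi

theorem ae_ne (c : ℝ) : ∀ᵐ y ∂mu, y ≠ c := by
  unfold mu
  apply withDensity_absolutelyContinuous
  apply ae_restrict_of_ae
  rw [ae_iff]; simp

theorem B_coe (f : X1) : ∀ᵐ x ∂mu, rk ell beta f x =
    ∫ y in Ioi x, ((frag y * kernel x y : ℝ) : ℂ) * f y := by
  rw [rk_apply]
  filter_upwards [Lp.coeFn_smul (ell f) beta, beta_coe, ae_pos] with x h1 h2 hx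
  rw [h1]
  simp only [Pi.smul_apply, smul_eq_mul]
  rw [h2]
  by_cases hx1 : x < 1
  · rw [indicator_of_mem (show x ∈ Ioo (0 : ℝ) 1 from ⟨hx, hx1⟩), ell_apply]
    have e : ∀ y ∈ Ioi x, ((frag y * kernel x y : ℝ) : ℂ) * f y =
        (Ici (1 : ℝ)).indicator (fun y => 2 * ((y : ℂ) * f y)) y := by
      intro y _
      unfold frag kernel
      by_cases hy : 1 ≤ y
      · rw [if_neg (not_lt.2 hy), if_pos hy, if_pos hx1,
          indicator_of_mem (show y ∈ Ici (1 : ℝ) from hy)]
        push_cast; ring
      · rw [if_pos (not_le.1 hy), indicator_of_notMem (show y ∉ Ici (1 : ℝ) from hy)]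
        simp
    rw [setIntegral_congr_fun measurableSet_Ioi e, setIntegral_indicator measurableSet_Ici]
    have hset : Ioi x ∩ Ici 1 = Ici 1 := by
      ext y
      simp only [mem_inter_iff, mem_Ioi, mem_Ici]
      constructor
      · exact fun h => h.2
      · exact fun h => ⟨by linarith, h⟩
    rw [hset, integral_const_mul, mul_comm]
  · rw [indicator_of_notMem (fun h => hx1 h.2), mul_zero]
    push Not at hx1
    have e : ∀ y ∈ Ioi x, ((frag y * kernel x y : ℝ) : ℂ) * f y = 0 := by
      intro y hy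
      have hy1 : 1 ≤ y := hx1.trans (le_of_lt hy)
      unfold kernel
      rw [if_pos hy1, if_neg (not_lt.2 hx1)]
      simp
    rw [setIntegral_congr_fun measurableSet_Ioi e]
    simp

/-- The scaled transport operators. -/
noncomputable def S0 (t : ℝ) : X1 →L[ℂ] X1 := (Real.exp t : ℂ) • T t

theorem transport_ok (t : ℝ) (ht : 0 ≤ t) (f : X1) : ∀ᵐ y ∂mu, S0 t f y =
    (Real.exp (-∫ p in (flow y t)..y, frag p / rate p) : ℂ) * f (flow y t) *
      ((deriv (fun z => flow z t) y : ℝ) : ℂ) := by
  filter_upwards [T_coe t f, Lp.coeFn_smul (Real.exp t : ℂ) (T t f), ae_pos, ae_ne 1,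
    ae_ne (Real.exp (2 * t))] with y h1 h2 hy hy1 hy2
  have hy3 : Real.exp (-t) * Real.sqrt y ≠ 1 := by
    intro h
    apply hy2
    have h3 : Real.sqrt y = Real.exp t := by
      rw [Real.exp_neg] at h
      field_simp at h
      exact h
    rw [← Real.sq_sqrt hy.le, h3, ← Real.exp_nat_mul]
    norm_num
  have hw := weight_ok hy ht hy1 hy3
  show ((Real.exp t : ℂ) • (T t f) : X1) y = _
  rw [h2]
  simp only [Pi.smul_apply, smul_eq_mul]
  rw [h1]
  have e : (Real.exp (-∫ p in (flow y t)..y, frag p / rate p) : ℂ) * f (flow y t) *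
      ((deriv (fun z => flow z t) y : ℝ) : ℂ) =
      ((Real.exp (-∫ p in (flow y t)..y, frag p / rate p) * deriv (fun z => flow z t) y : ℝ) : ℂ) *
        f (flow y t) := by
    push_cast; ring
  rw [e, hw, ← mul_assoc, ← Complex.ofReal_mul]
  congr 2
  have h4 : Real.exp t * Real.exp (-(2 * t)) = Real.exp (-t) := by
    rw [← Real.exp_add]; congr 1; ring
  calc Real.exp t * (wk y * (Real.exp (-(2 * t)) * wi (Real.exp (-t) * kap y)))
      = (Real.exp t * Real.exp (-(2 * t))) * wk y * wi (Real.exp (-t) * kap y) := by ring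
    _ = _ := by rw [h4]

end Pool.Agent.X114.GF
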