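import Pool.Agent.X114.GF.GF7

/-! The growth-fragmentation semigroup has a spectral gap. -/

namespace Pool.Agent.X114.GF

open MeasureTheory Filter Topology Set
open scoped ComplexOrder

theorem S0_zero : S0 0 = 1 := by
  unfold S0
  rw [Real.exp_zero, Complex.ofReal_one, one_smul, isoGroup_T.zero]

theorem S0_add (s t : ℝ) (f : X1) : S0 (s + t) f = S0 s (S0 t f) := by
  show (Real.exp (s + t) : ℂ) • T (s + t) f = (Real.exp s : ℂ) • T s ((Real.exp t : ℂ) • T t f)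
  rw [map_smul, smul_smul, ← Complex.ofReal_mul, ← Real.exp_add, isoGroup_T.add]

theorem S0_cont (f : X1) : Continuous fun t => S0 t f := by
  have h : Continuous fun t : ℝ => (Real.exp t : ℂ) := by fun_prop
  exact h.smul (isoGroup_T.cont f)

theorem smul_pos {c : ℝ} (hc : 0 ≤ c) {f : X1} (h : ∀ φ ∈ Phi, 0 ≤ φ f) :
    ∀ φ ∈ Phi, 0 ≤ φ ((c : ℂ) • f) := by
  intro φ hφ
  rw [map_smul, smul_eq_mul]
  apply mul_nonneg _ (h φ hφ)
  exact_mod_cast hc

theorem S0_pos (t : ℝ) (f : X1) (h : ∀ᵐ x ∂mu, 0 ≤ f x) : ∀ᵐ x ∂mu, 0 ≤ S0 t f x := by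
  rw [pos_iff] at h ⊢
  exact smul_pos (Real.exp_pos t).le (T_pos t f h)

theorem core : ∃ V : ℝ → X1 →L[ℂ] X1, V 0 = 1 ∧ (∀ s t f, V (s + t) f = V s (V t f)) ∧
    (∀ f, Continuous fun t => V t f) ∧
    (∀ t, 0 ≤ t → ∀ f : X1, (∀ᵐ x ∂mu, 0 ≤ f x) → ∀ᵐ x ∂mu, 0 ≤ V t f x) ∧
    (∀ f, Tendsto (fun t : ℝ => ((t⁻¹ : ℝ) : ℂ) • (V t f - S0 t f)) (𝓝[>] 0)
      (𝓝 (rk ell beta f))) ∧
    ∀ t, 0 < t → essSpectralRadius (V t) < spectralRadius ℂ (V t) := by
  obtain ⟨V, hV0, hVadd, hVc, hVgen, hVz, hVs, ⟨C, w, hC, hw, hVn⟩, hVpos⟩ :=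
    exists_V (B := rk ell beta) isoGroup_T Phi T_pos B_pos
  obtain ⟨u, hu, hVu⟩ := eigen isoGroup_T hVz ev_pos char_T
  refine ⟨fun t => (Real.exp t : ℂ) • V t, ?_, fun s t f => ?_, fun f => ?_, fun t ht f hf => ?_,
    fun f => ?_, fun t ht => ?_⟩
  · show (Real.exp 0 : ℂ) • V 0 = 1
    rw [Real.exp_zero, Complex.ofReal_one, one_smul, hV0]
  · show (Real.exp (s + t) : ℂ) • V (s + t) f = (Real.exp s : ℂ) • V s ((Real.exp t : ℂ) • V t f)
    rw [map_smul, smul_smul, ← Complex.ofReal_mul, ← Real.exp_add, hVadd]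
  · have h : Continuous fun t : ℝ => (Real.exp t : ℂ) := by fun_prop
    exact h.smul (hVc f)
  · rw [pos_iff] at hf ⊢
    exact smul_pos (Real.exp_pos t).le (hVpos f hf t ht)
  · have h1 : Tendsto (fun t : ℝ => (Real.exp t : ℂ)) (𝓝[>] 0) (𝓝 1) := by
      have h : Continuous fun t : ℝ => (Real.exp t : ℂ) := by fun_prop
      have h2 := h.tendsto 0
      rw [Real.exp_zero, Complex.ofReal_one] at h2
      exact h2.mono_left nhdsWithin_le_nhds
    have h2 := h1.smul (hVgen f)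
    rw [one_smul] at h2
    refine h2.congr fun t => ?_
    show (Real.exp t : ℂ) • ((t⁻¹ : ℝ) : ℂ) • (V t f - T t f) =
      ((t⁻¹ : ℝ) : ℂ) • ((Real.exp t : ℂ) • V t f - (Real.exp t : ℂ) • T t f)
    rw [← smul_sub, smul_comm]
  · have h1 : essSpectralRadius ((Real.exp t : ℂ) • V t) ≤ ENNReal.ofReal (Real.exp t) := by
      refine ess_le (S := S0 t) (Real.exp_pos t).le ?_ ?_
      · refine ContinuousLinearMap.opNorm_le_bound _ (Real.exp_pos t).le fun f => ?_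
        show ‖(Real.exp t : ℂ) • T t f‖ ≤ _
        rw [norm_smul, isoGroup_T.norm, Complex.norm_real, Real.norm_eq_abs,
          abs_of_pos (Real.exp_pos t)]
      · have h := (compact_diff isoGroup_T hVc hVs hC hw hVn t ht.le).smul (Real.exp t : ℂ)
        have e : ((Real.exp t : ℂ) • V t - S0 t : X1 →L[ℂ] X1) =
            (Real.exp t : ℂ) • (V t - T t) := by
          unfold S0
          rw [smul_sub]
        rw [e]
        exact h
    have h2 : ENNReal.ofReal (Real.exp (t + ev * t)) ≤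
        spectralRadius ℂ ((Real.exp t : ℂ) • V t) := by
      refine le_spectralRadius hu (Real.exp_pos _).le ?_
      show (Real.exp t : ℂ) • V t u = _
      rw [hVu, smul_smul, ← Complex.ofReal_mul, ← Real.exp_add]
    refine lt_of_le_of_lt h1 (lt_of_lt_of_le ?_ h2)
    apply (ENNReal.ofReal_lt_ofReal_iff (Real.exp_pos _)).2
    apply Real.exp_lt_exp.2
    have := mul_pos ev_pos ht
    linarith

theorem main : ∃ V : ℝ → Lp ℂ 1 mu →L[ℂ] Lp ℂ 1 mu,
    IsGrowthFragmentationSemigroup mu rate frag kernel V ∧ HasSpectralGap V := by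
  obtain ⟨V, hV0, hVadd, hVc, hVpos, hVgen, hVgap⟩ := core
  have h0 : ∀ {S : ℝ → X1 →L[ℂ] X1}, S 0 = 1 → (∀ f, Continuous fun t => S t f) →
      ∀ f, Tendsto (fun t => S t f) (𝓝[>] 0) (𝓝 f) := by
    intro S hS0 hSc f
    have h := (hSc f).tendsto 0
    have e : S 0 f = f := by rw [hS0]; rfl
    rw [e] at h
    exact h.mono_left nhdsWithin_le_nhds
  have hgen : ∀ f g : X1, Tendsto (fun t : ℝ => ((t⁻¹ : ℝ) : ℂ) • (V t f - f)) (𝓝[>] 0) (𝓝 g) ↔
      ∃ h : X1, Tendsto (fun t : ℝ => ((t⁻¹ : ℝ) : ℂ) • (S0 t f - f)) (𝓝[>] 0) (𝓝 h) ∧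
        ∀ᵐ x ∂mu, g x = h x + ∫ y in Ioi x, ((frag y * kernel x y : ℝ) : ℂ) * f y := by
    intro f g
    have hg := hVgen f
    constructor
    · intro h
      refine ⟨g - rk ell beta f, ?_, ?_⟩
      · refine (h.sub hg).congr fun t => ?_
        rw [← smul_sub]
        congr 1
        abel
      · filter_upwards [B_coe f, Lp.coeFn_sub g (rk ell beta f)] with x h1 h2
        rw [h2, ← h1]
        simp
    · rintro ⟨h, hh, hgh⟩
      have e : g = h + rk ell beta f := by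
        apply Lp.ext
        filter_upwards [B_coe f, Lp.coeFn_add h (rk ell beta f), hgh] with x h1 h2 h3
        rw [h3, h2, ← h1]
        rfl
      rw [e]
      refine (hh.add hg).congr fun t => ?_
      rw [← smul_add]
      congr 1
      abel
  exact ⟨V, ⟨⟨hV0, fun s t _ _ f => hVadd s t f, h0 hV0 hVc⟩, hVpos, flow, S0, flow_ok,
    transport_ok, ⟨S0_zero, fun s t _ _ f => S0_add s t f, h0 S0_zero S0_cont⟩,
    fun t _ f hf => S0_pos t f hf, hgen⟩, hVgap⟩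

end Pool.Agent.X114.GF
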